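import Pool.Agent.H914R2.KDefs

/-!
# The proportion of the cohomology on which the Lefschetz operator is inverted: definitions
-/

open CategoryTheory AlgebraicGeometry

universe u v

namespace Pool.Agent.V1144.Pw

open Pool.Agent.H914 Pool.Agent.H914.VarClass Pool.Agent.H914.VarClass.Obj
  Pool.Agent.H914.WeilCohomology

variable {k : Type u} [Field k] {𝒱 : VarClass k}

/-- The product of `m + 1` copies of `X`. -/
noncomputable def pow (X : 𝒱.Obj) : ℕ → 𝒱.Obj
  | 0 => X
  | m + 1 => (pow X m).prod X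

variable {ops : CycleOps 𝒱}

/-- The divisor `pr_0^* D + ... + pr_m^* D` on the product of `m + 1` copies of `X`. -/
noncomputable def powDiv (ops : CycleOps 𝒱) {X : 𝒱.Obj} (D : X.Cycles) : ∀ m, (pow X m).Cycles
  | 0 => D
  | m + 1 => ops.pull (fst (pow X m) X) (powDiv ops D m) + ops.pull (snd (pow X m) X) D

/-- The conjecture C for `X`: all Künneth projectors of `X` are induced by linear combinations of
algebraic cycles with coefficients in the coefficient field. -/
def KunnethSpan (W : WeilCohomology.{u, v} ops) (X : 𝒱.Obj) : Prop :=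
  ∀ i : ℕ, ∃ γ ∈ spanCycles W (X.prod X) (X.dim : ℤ), IsProjector (W.gr X) i (W.corr γ)

/-- The combination `γ` of correspondences on `Y` inverts `ξ ^ (N - i)` on the subspace `F` of
`H^i(Y)`, where `N = dim Y` and `ξ` is the class of `E`. -/
def InvertsOn (W : WeilCohomology.{u, v} ops) (Y : 𝒱.Obj) (E : Y.Cycles) (i : ℕ)
    (γ : W.H (Y.prod Y)) (F : Submodule W.K (W.H Y)) : Prop :=
  F ≤ W.gr Y i ∧ ∀ x ∈ F, W.corr γ (W.cl Y E ^ (Y.dim - i) * x) = x

/-- For all degrees `i ≤ N = dim Y` there is a linear combination of cycles of codimension `i` on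
`Y × Y`, with coefficients in the coefficient field of the theory, which inverts `ξ ^ (N - i)` on a
subspace of `H^i(Y)` of dimension at least `ε * dim H^i(Y)`, where `ξ` is the class of `E`. -/
def InvertsProportion (W : WeilCohomology.{u, v} ops) (Y : 𝒱.Obj) (E : Y.Cycles) (ε : ℝ) : Prop :=
  ∀ i ≤ Y.dim, ∃ γ ∈ spanCycles W (Y.prod Y) (i : ℤ), ∃ F : Submodule W.K (W.H Y),
    InvertsOn W Y E i γ F ∧ ε * (W.betti Y i : ℝ) ≤ (Module.finrank W.K F : ℝ)

end Pool.Agent.V1144.Pw
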