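import Pool.Agent.V1144.Pw.Num
import Pool.Agent.V1144.Pw.Defs
import Pool.Agent.H914R2.Crit
import Pool.Agent.H447R3.AoA
import Pool.Agent.TH132.A.HLf
import Pool.Agent.W552.Fr

/-!
# Powers of a variety
-/

open CategoryTheory AlgebraicGeometry Finset

set_option linter.unusedSectionVars false
set_option linter.unusedVariables false

universe u v

namespace Pool.Agent.V1144.Pw

open Pool.Agent.H914 Pool.Agent.H914.VarClass Pool.Agent.H914.VarClass.Obj
  Pool.Agent.H914.WeilCohomology Pool.Agent.H281R3.HT Pool.Agent.Y129 Pool.Agent.H447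

variable {k : Type u} [Field k] {𝒱 : VarClass k} {ops : CycleOps 𝒱}
  {W : WeilCohomology.{u, v} ops} {X Y Z : 𝒱.Obj}

lemma powDiv_mem {D : X.Cycles} (hD : X.IsCyc 1 D) (m : ℕ) :
    (pow X m).IsCyc 1 (powDiv ops D m) := by
  induction m with
  | zero => exact hD
  | succ m ih => exact SmVar.IsCyc.add (ops.pull_mem _ ih) (ops.pull_mem _ hD)

lemma pow_dim (X : 𝒱.Obj) (m : ℕ) : (pow X m).dim = X.dim * (m + 1) := by
  induction m with
  | zero => simp [pow]
  | succ m ih =>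
    change (pow X m).dim + X.dim = _
    rw [ih]; ring

lemma kspan_iff : KunnethSpan W X ↔ KSpan W X := by
  constructor
  · intro h i
    obtain ⟨γ, hγ, hP⟩ := h i
    have e : proj (W.isInternal X) i = W.corr γ := by
      apply gr_ext (W.isInternal X)
      intro j a ha
      rw [hP j a ha]
      by_cases hj : j = i
      · subst hj; rw [proj_same _ ha, if_pos rfl]
      · rw [proj_ne _ ha hj, if_neg hj]
    rw [e]
    exact mem_KOp_iff.2 ⟨γ, by simpa using hγ, rfl⟩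
  · intro h i
    obtain ⟨γ, hγ, hP⟩ := mem_KOp_iff.1 (h i)
    refine ⟨γ, by simpa using hγ, fun j a ha => ?_⟩
    rw [hP]
    by_cases hj : j = i
    · subst hj; rw [proj_same _ ha, if_pos rfl]
    · rw [proj_ne _ ha hj, if_neg hj]

lemma KSpan.pow (hX : KSpan W X) (m : ℕ) : KSpan W (pow X m) := by
  induction m with
  | zero => exact hX
  | succ m ih => exact ih.prod hX

/-! ### The representation of `sl(2)` -/

/-- There is an algebraic lowering operator. -/
def AlgSl2 (W : WeilCohomology.{u, v} ops) (Y : 𝒱.Obj) (E : Y.Cycles) : Prop :=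
  ∃ f ∈ KOp W Y Y (-1), Sl2 (wt (W.isInternal Y) Y.dim) (lef W E) f

lemma algSl2_of_B {D : X.Cycles} (hD : X.IsCyc 1 D) (hHL : HardLefschetz W X D)
    (hB : LefschetzB W X D) : AlgSl2 W X D := by
  have hLR := rop_mulLeft (W := W) hD
  have hLh : IsHom (W.gr X) 2 (LinearMap.mulLeft W.K (W.cl X D)) := by
    simpa using rop_opAlg.hom hLR
  obtain ⟨f, t, hf, hfv⟩ := exists_sl2 (W.isInternal X) hLh W_hbd hHL
  obtain ⟨Φ, hΦ, hLam⟩ := lefschetzB_iff_rop.1 hB
  have h1 : ROp W X (-1) f :=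
    lower_of_lam rop_opAlg (W.isInternal X) W_hbd hLR hHL hΦ hLam hfv
  exact ⟨f, mem_KS_iff.1 (Submodule.subset_span h1), t⟩

lemma AlgSl2.prod {D : X.Cycles} {E : Y.Cycles} (hE : Y.IsCyc 1 E) (hX : AlgSl2 W X D)
    (hY : AlgSl2 W Y E) :
    AlgSl2 W (X.prod Y) (ops.pull (fst X Y) D + ops.pull (snd X Y) E) := by
  obtain ⟨f, hf, t⟩ := hX
  obtain ⟨g, hg, s⟩ := hY
  refine ⟨extSum W f g, ?_, ?_⟩
  · refine Submodule.add_mem _ ?_ ?_
    · exact KOp.cast (KOp.ext hf (KOp.id Y)) (by ring)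
    · exact KOp.cast (KOp.ext (KOp.id X) hg) (by ring)
  · have := sl2_prod t s (W := W)
    rwa [← wt_prod, ← mulLeft_prod hE] at this

lemma AlgSl2.pow {D : X.Cycles} (hD : X.IsCyc 1 D) (hX : AlgSl2 W X D) (m : ℕ) :
    AlgSl2 W (pow X m) (powDiv ops D m) := by
  induction m with
  | zero => exact hX
  | succ m ih => exact ih.prod hD hX

lemma AlgSl2.hardLefschetz {D : X.Cycles} (hD : X.IsCyc 1 D) (hX : AlgSl2 W X D) :
    HardLefschetz W X D := by
  obtain ⟨f, -, t⟩ := hX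
  refine TH132.A.hardLefschetz_of_inj hD fun i hi a ha h0 => ?_
  by_contra ha0
  refine Sl2.e_pow_inj t (x := a) (M := X.dim - i) ?_ ha0 le_rfl h0
  rw [wt, scal_apply _ _ ha, node]
  congr 1
  rw [Nat.cast_sub hi]
  push_cast
  ring

lemma neg_pow_zero {K V : Type*} [Field K] [AddCommGroup V] [Module K V] {f : Module.End K V}
    {c : ℕ} {a : V} (h0 : (f ^ c) a = 0) : ((-f) ^ c) a = 0 := by
  rw [neg_pow, Module.End.mul_apply, h0, map_zero]

lemma AlgSl2.lefschetzB {D : X.Cycles} (hD : X.IsCyc 1 D) (hX : AlgSl2 W X D) :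
    LefschetzB W X D := by
  have hHL := hX.hardLefschetz hD
  obtain ⟨f, hf, t⟩ := hX
  apply lefschetzB_of_inj hD hHL
  intro c hc
  refine ⟨f ^ c, ?_, fun a ha h0 => ?_⟩
  · rw [← mem_KS_iff] at hf ⊢
    exact rop_opAlg.kspan.cast (rop_opAlg.kspan.pow hf c) (by ring)
  · by_contra ha0
    refine Sl2.e_pow_inj t.neg_swap (x := a) (M := c) ?_ ha0 le_rfl ?_
    · rw [LinearMap.neg_apply, wt, scal_apply _ _ ha, node, neg_smul]
      congr 2
      push_cast
      ring
    · exact neg_pow_zero h0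

/-- If the conjecture B holds then everything is inverted. -/
lemma invertsProportion_of_B {E : Y.Cycles} (hE : Y.IsCyc 1 E) (hHL : HardLefschetz W Y E)
    (hB : LefschetzB W Y E) : InvertsProportion W Y E 1 := by
  intro i hi
  have hLR := rop_mulLeft (W := W) hE
  have hLh : IsHom (W.gr Y) 2 (LinearMap.mulLeft W.K (W.cl Y E)) := by
    simpa using rop_opAlg.hom hLR
  obtain ⟨Φ, hΦ, hLam⟩ := lefschetzB_iff_rop.1 hB
  have h1 : Φ ^ (Y.dim - i) ∈ KOp W Y Y (-((Y.dim - i : ℕ) : ℤ)) := by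
    rw [← mem_KS_iff]
    exact rop_opAlg.kspan.cast (rop_opAlg.kspan.pow (Submodule.subset_span hΦ) _) (by ring)
  obtain ⟨γ, hγ, hγΦ⟩ := mem_KOp_iff.1 h1
  refine ⟨γ, ?_, W.gr Y i, ⟨le_rfl, fun x hx => ?_⟩, ?_⟩
  · rwa [show (Y.dim : ℤ) + -((Y.dim - i : ℕ) : ℤ) = i by omega] at hγ
  · rw [hγΦ]
    have h2 := lam_pow_L_pow hLh W_hbd hHL hLam (c := Y.dim - i) (by omega) (a := x)
      (by rwa [show Y.dim - (Y.dim - i) = i by omega])
    rw [LinearMap.pow_mulLeft] at h2
    exact h2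
  · rw [one_mul]; exact le_rfl

/-! ### The blocks on the powers -/

/-- The blocks on the powers of `X`. -/
theorem exists_blocks (hC : KSpan W X) {D : X.Cycles} (hD : X.IsCyc 1 D) {t : ℚ} (ht : 0 ≤ t)
    {ι : Type} [Fintype ι] {q : ι → Module.End W.K (W.H X)} (hq : Blk W X D q) (m : ℕ) :
    ∃ (κ : Type) (_ : Fintype κ) (r : κ → Module.End W.K (W.H (pow X m))),
      Blk W (pow X m) (powDiv ops D m) r ∧
      ∑ b, gm W (pow X m) t (r b) = (∑ b, gm W X t (q b)) ^ (m + 1) := by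
  induction m with
  | zero => exact ⟨ι, inferInstance, q, hq, by rw [zero_add, pow_one]; rfl⟩
  | succ m ih =>
    obtain ⟨κ, _, r, hr, hsum⟩ := ih
    refine ⟨κ × ι, inferInstance, fun b => extOp W (r b.1) (q b.2),
      Blk.prod (parAlg (hC.pow m)) (parAlg hC) hD (powDiv_mem hD m) hr hq, ?_⟩
    rw [Fintype.sum_prod_type]
    have h1 : ∀ b c, gm W (pow X (m + 1)) t (extOp W (r b) (q c)) =
        gm W (pow X m) t (r b) * gm W X t (q c) := fun b c =>
      gm_prod (hr.mem b) (hr.idem b) (hq.mem c) (hq.idem c) ht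
    simp only [h1]
    rw [pow_succ, ← hsum, Finset.sum_mul_sum]

/-- The Poincaré polynomial of a power. -/
theorem pol_pow (t : ℚ) (m : ℕ) : pol W (pow X m) 1 t = pol W X 1 t ^ (m + 1) := by
  induction m with
  | zero => rw [zero_add, pow_one]; rfl
  | succ m ih =>
    rw [pow_succ, ← ih]
    have h1 := pol_prod (W := W) (X := pow X m) (Y := X) (one_mem) (mul_one 1) (one_mem)
      (mul_one 1) t
    rw [extOp_one] at h1
    exact h1

lemma rk_one (i : ℕ) : rk (W.isInternal Y) 1 i = W.betti Y i := by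
  rw [rk_eq]
  have : (W.gr Y i).map (1 : Module.End W.K (W.H Y)) = W.gr Y i := Submodule.map_id _
  rw [this]
  rfl

/-- The choice of the degree. -/
lemma exists_degree {t : ℚ} (ht : 0 < t) (ht1 : t < 1) (Y : 𝒱.Obj) :
    ∃ i ≤ Y.dim, pol W Y 1 t ≤ (2 * Y.dim + 1) * (W.betti Y i * t ^ i) := by
  by_contra hcon
  push Not at hcon
  have h1 : ∀ i ∈ range (2 * Y.dim + 1), (rk (W.isInternal Y) 1 i : ℚ) * t ^ i <
      pol W Y 1 t / (2 * Y.dim + 1) := by
    intro i hi
    rw [Finset.mem_range] at hi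
    rw [rk_one, lt_div_iff₀ (by positivity), mul_comm]
    by_cases hiY : i ≤ Y.dim
    · exact hcon i hiY
    · have h2 := hcon (2 * Y.dim - i) (by omega)
      refine lt_of_le_of_lt ?_ h2
      have h3 : W.betti Y i = W.betti Y (2 * Y.dim - i) := by
        have := betti_symm W (X := Y) (i := 2 * Y.dim - i) (by omega)
        rw [show 2 * Y.dim - (2 * Y.dim - i) = i by omega] at this
        exact this
      rw [h3]
      refine mul_le_mul_of_nonneg_left (mul_le_mul_of_nonneg_left ?_ (Nat.cast_nonneg _))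
        (by positivity)
      exact pow_le_pow_of_le_one ht.le ht1.le (by omega)
  have h2 : pol W Y 1 t < ∑ _i ∈ range (2 * Y.dim + 1), pol W Y 1 t / (2 * Y.dim + 1) :=
    Finset.sum_lt_sum_of_nonempty ⟨0, by simp⟩ h1
  rw [Finset.sum_const, Finset.card_range, nsmul_eq_mul] at h2
  push_cast at h2
  rw [mul_div_cancel₀ _ (by positivity)] at h2
  exact lt_irrefl _ h2

/-- **The bound on the powers of `X`.** -/
theorem bound (hC : KSpan W X) {D : X.Cycles} (hD : X.IsCyc 1 D) {t : ℚ} (ht : 0 < t)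
    (ht1 : t < 1) {ι : Type} [Fintype ι] {q : ι → Module.End W.K (W.H X)} (hq : Blk W X D q)
    (hpos : 0 < pol W X 1 t) (m : ℕ) :
    ∃ i ≤ (pow X m).dim, 0 < W.betti (pow X m) i ∧
      ∀ γ ∈ spanCycles W ((pow X m).prod (pow X m)) (i : ℤ), ∀ F : Submodule W.K (W.H (pow X m)),
        InvertsOn W (pow X m) (powDiv ops D m) i γ F →
        (Module.finrank W.K F : ℝ) ≤ (2 * (X.dim * (m + 1)) + 1) *
          ((t : ℝ) ^ X.dim * (∑ b, gm W X t (q b)) / (pol W X 1 t : ℝ)) ^ (m + 1) *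
            (W.betti (pow X m) i : ℝ) := by
  have htr : (0 : ℝ) < t := by exact_mod_cast ht
  have hposr : (0 : ℝ) < (pol W X 1 t : ℝ) := by exact_mod_cast hpos
  obtain ⟨κ, _, r, hr, hsum⟩ := exists_blocks hC hD ht.le hq m
  obtain ⟨i, hi, hdeg⟩ := exists_degree (W := W) ht ht1 (pow X m)
  rw [pol_pow] at hdeg
  have hb : 0 < W.betti (pow X m) i := by
    rw [Nat.pos_iff_ne_zero]
    intro h0
    rw [h0, Nat.cast_zero, zero_mul, mul_zero] at hdeg
    exact absurd hdeg (not_le.2 (pow_pos hpos _))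
  refine ⟨i, hi, hb, fun γ hγ F ⟨hF, hfix⟩ => ?_⟩
  have hγO : W.corr γ ∈ KOp W (pow X m) (pow X m) (-(((pow X m).dim - i : ℕ) : ℤ)) := by
    refine mem_KOp_iff.2 ⟨γ, ?_, rfl⟩
    rwa [show ((pow X m).dim : ℤ) + -(((pow X m).dim - i : ℕ) : ℤ) = i by omega]
  have h1 := fix_le (powDiv_mem hD m) hr hi hγO hF (fun x hx => by
    rw [LinearMap.pow_mulLeft]
    exact hfix x hx)
  have h2 : (Module.finrank W.K F : ℝ) ≤ ∑ b, (t : ℝ) ^ ((pow X m).dim - i) *
      gm W (pow X m) t (r b) := by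
    have h3 : (Module.finrank W.K F : ℝ) ≤ ((∑ b, min (rk (W.isInternal (pow X m)) (r b) i)
        (rk (W.isInternal (pow X m)) (r b) (2 * (pow X m).dim - i)) : ℕ) : ℝ) := by
      exact_mod_cast h1
    refine h3.trans ?_
    rw [Nat.cast_sum]
    exact Finset.sum_le_sum fun b _ => min_le_gm _ ht hi
  rw [← Finset.mul_sum, hsum] at h2
  set Zt := ∑ b, gm W X t (q b) with hZt
  have hZ0 : 0 ≤ Zt := Finset.sum_nonneg fun b _ => Real.sqrt_nonneg _
  set B := (W.betti (pow X m) i : ℝ) with hB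
  set P := (pol W X 1 t : ℝ) with hP
  have hdegr : P ^ (m + 1) ≤ (2 * ((pow X m).dim : ℝ) + 1) * (B * (t : ℝ) ^ i) := by
    have h5 := (Rat.cast_le (K := ℝ)).2 hdeg
    push_cast at h5
    exact h5
  have h4 : (Module.finrank W.K F : ℝ) * P ^ (m + 1) ≤ (2 * (X.dim * (m + 1)) + 1) *
      ((t : ℝ) ^ X.dim * Zt) ^ (m + 1) * B := by
    calc (Module.finrank W.K F : ℝ) * P ^ (m + 1)
        ≤ ((t : ℝ) ^ ((pow X m).dim - i) * Zt ^ (m + 1)) *
          ((2 * ((pow X m).dim : ℝ) + 1) * (B * (t : ℝ) ^ i)) :=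
          mul_le_mul h2 hdegr (by positivity) (by positivity)
      _ = (2 * ((pow X m).dim : ℝ) + 1) * ((t : ℝ) ^ ((pow X m).dim - i) * (t : ℝ) ^ i) *
          Zt ^ (m + 1) * B := by ring
      _ = _ := by
        rw [← pow_add, Nat.sub_add_cancel hi, pow_dim, pow_mul, mul_pow]
        push_cast
        ring
  rw [div_pow, mul_div_assoc', div_mul_eq_mul_div, le_div_iff₀ (by positivity)]
  exact h4

end Pool.Agent.V1144.Pw
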