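import Pool.Agent.H914R2.Core2
import Pool.Agent.H914R2.Graded

/-!
# Graded algebras of operators and idempotents which commute with `L` modulo the radical
-/

open Polynomial Finset

set_option linter.unusedSectionVars false
set_option linter.unusedVariables false

namespace Pool.Agent.V1144.Pw

open Pool.Agent.H914

variable {K : Type*} [Field K] {V : Type*} [AddCommGroup V] [Module K V]
  {gr : ℕ → Submodule K V}

/-- Operators of degree `2 d` and projectors. -/
lemma proj_shift (h : DirectSum.IsInternal gr) {y : Module.End K V} {d : ℕ}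
    (hy : IsHom gr (2 * d) y) (j : ℕ) : proj h (j + 2 * d) * y = y * proj h j := by
  apply gr_ext h
  intro i a ha
  have h1 := hy i a (by rw [grZ_natCast]; exact ha)
  rw [show (i : ℤ) + 2 * d = ((i + 2 * d : ℕ) : ℤ) by push_cast; ring, grZ_natCast] at h1
  rw [Module.End.mul_apply, Module.End.mul_apply]
  by_cases hij : i = j
  · subst hij
    rw [proj_same h h1, proj_same h ha]
  · rw [proj_ne h h1 (by omega), proj_ne h ha hij, map_zero]

/-- A graded algebra of operators which contains the projectors. -/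
structure GAlg (h : DirectSum.IsInternal gr) (O : ℤ → Submodule K (Module.End K V)) : Prop where
  one : 1 ∈ O 0
  mul : ∀ {d e : ℤ} {x y : Module.End K V}, x ∈ O d → y ∈ O e → x * y ∈ O (d + e)
  hom : ∀ {d : ℤ} {x : Module.End K V}, x ∈ O d → IsHom gr (2 * d) x
  proj : ∀ i, proj h i ∈ O 0

/-- The radical. -/
def Rad (O : ℤ → Submodule K (Module.End K V)) (d : ℤ) (x : Module.End K V) : Prop :=
  x ∈ O d ∧ ∀ y ∈ O (-d), LinearMap.trace K V (y * x) = 0

section

variable {h : DirectSum.IsInternal gr} {O : ℤ → Submodule K (Module.End K V)} (hO : GAlg h O)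

lemma Rad.cast {d e : ℤ} {x : Module.End K V} (hx : Rad O d x) (hde : d = e) : Rad O e x :=
  hde ▸ hx

lemma Rad.add {d : ℤ} {x y : Module.End K V} (hx : Rad O d x) (hy : Rad O d y) :
    Rad O d (x + y) :=
  ⟨Submodule.add_mem _ hx.1 hy.1, fun z hz => by
    rw [mul_add, map_add, hx.2 z hz, hy.2 z hz, add_zero]⟩

lemma Rad.sub {d : ℤ} {x y : Module.End K V} (hx : Rad O d x) (hy : Rad O d y) :
    Rad O d (x - y) :=
  ⟨Submodule.sub_mem _ hx.1 hy.1, fun z hz => by
    rw [mul_sub, map_sub, hx.2 z hz, hy.2 z hz, sub_zero]⟩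

lemma Rad.zero (d : ℤ) : Rad O d 0 :=
  ⟨Submodule.zero_mem _, fun z _ => by rw [mul_zero, map_zero]⟩

include hO

lemma GAlg.memc {d e : ℤ} {x : Module.End K V} (hx : x ∈ O d) (hde : d = e) : x ∈ O e :=
  hde ▸ hx

lemma Rad.mul_left {d e : ℤ} {x y : Module.End K V} (hy : y ∈ O e) (hx : Rad O d x) :
    Rad O (e + d) (y * x) :=
  ⟨hO.mul hy hx.1, fun z hz => by
    rw [← mul_assoc]
    exact hx.2 _ (hO.memc (hO.mul hz hy) (by ring))⟩

lemma Rad.mul_right {d e : ℤ} {x y : Module.End K V} (hx : Rad O d x) (hy : y ∈ O e) :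
    Rad O (d + e) (x * y) :=
  ⟨hO.mul hx.1 hy, fun z hz => by
    rw [← mul_assoc, LinearMap.trace_mul_comm, ← mul_assoc]
    exact hx.2 _ (hO.memc (hO.mul hy hz) (by ring))⟩

lemma GAlg.pow {d : ℤ} {x : Module.End K V} (hx : x ∈ O d) (m : ℕ) : x ^ m ∈ O (m * d) := by
  induction m with
  | zero => simpa using hO.one
  | succ m ih =>
    rw [pow_succ]
    exact hO.memc (hO.mul ih hx) (by push_cast; ring)

lemma GAlg.aeval {x : Module.End K V} (hx : x ∈ O 0) (f : K[X]) : aeval x f ∈ O 0 := by
  induction f using Polynomial.induction_on' with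
  | add p q hp hq => rw [map_add]; exact Submodule.add_mem _ hp hq
  | monomial r c =>
    rw [aeval_monomial, Algebra.algebraMap_eq_smul_one, smul_mul_assoc, one_mul]
    exact Submodule.smul_mem _ _ (hO.memc (hO.pow hx r) (by ring))

lemma GAlg.sum {ι : Type*} {s : Finset ι} {d : ℤ} {x : ι → Module.End K V}
    (hx : ∀ i ∈ s, x i ∈ O d) : ∑ i ∈ s, x i ∈ O d := Submodule.sum_mem _ hx

lemma GAlg.proj_comm {x : Module.End K V} (hx : x ∈ O 0) (i : ℕ) :
    H914.proj h i * x = x * H914.proj h i :=
  IsHom.proj_comm h (by simpa using hO.hom hx) i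

/-- The powers of `L` commute with `Q` modulo the radical if `L` does. -/
lemma rad_comm_pow {L Q : Module.End K V} (hL : L ∈ O 1) (hQ : Q ∈ O 0)
    (hc : Rad O 1 (Q * L - L * Q)) (m : ℕ) : Rad O m (Q * L ^ m - L ^ m * Q) := by
  induction m with
  | zero => rw [pow_zero, mul_one, one_mul, sub_self]; exact Rad.zero _
  | succ m ih =>
    have e : Q * L ^ (m + 1) - L ^ (m + 1) * Q =
        (Q * L ^ m - L ^ m * Q) * L + L ^ m * (Q * L - L * Q) := by
      rw [pow_succ]; noncomm_ring
    rw [e]
    exact ((Rad.mul_right hO ih hL).cast (by push_cast; ring)).add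
      ((Rad.mul_left hO (hO.pow hL m) hc).cast (by push_cast; ring))

variable [CharZero K] [Module.Finite K V]

/-- Products with elements of the radical are nilpotent. -/
lemma Rad.nilp {d : ℤ} {x y : Module.End K V} (hx : Rad O d x) (hy : y ∈ O (-d)) :
    IsNilpotent (y * x) := by
  apply isNilpotent_of_trace_pow
  intro r
  rw [pow_succ, ← mul_assoc]
  refine hx.2 _ (hO.memc (hO.mul (hO.pow (hO.mul hy hx.1) r) hy) (by ring))

lemma Rad.nilp0 {x : Module.End K V} (hx : Rad O 0 x) : IsNilpotent x := by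
  have := Rad.nilp hO hx (y := 1) (by simpa using hO.one)
  rwa [one_mul] at this

/-- An idempotent in the radical is zero. -/
lemma eq_zero_of_rad {Q : Module.End K V} (hQ : Q * Q = Q) (h0 : Rad O 0 Q) : Q = 0 := by
  obtain ⟨m, hm⟩ := Rad.nilp0 hO h0
  have h1 : ∀ m : ℕ, Q ^ (m + 1) = Q := by
    intro m
    induction m with
    | zero => rw [zero_add, pow_one]
    | succ m ih => rw [pow_succ, ih, hQ]
  rw [← h1 m, pow_succ, hm, zero_mul]

end

/-- A polynomial without constant term in an operator which is not nilpotent is a nonzero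
idempotent. -/
lemma exists_idem [Module.Finite K V] {A : Module.End K V} (hA : ¬ IsNilpotent A) :
    ∃ g : K[X], (aeval A g * A) * (aeval A g * A) = aeval A g * A ∧ aeval A g * A ≠ 0 := by
  obtain ⟨w, k, -, hw, hkw, g, hg⟩ := exists_fitting A
  have e : aeval A g * A = 1 - aeval A w := by
    have h1 := congrArg (aeval A) hg
    rw [map_sub, map_one, map_mul, aeval_X] at h1
    have h2 : aeval A (g * X) = aeval A (X * g) := by rw [mul_comm]
    rw [map_mul, map_mul, aeval_X] at h2
    rw [h1, h2]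
  refine ⟨g, ?_, ?_⟩
  · rw [e, mul_sub, sub_mul, sub_mul, hw]
    simp
  · intro h0
    rw [e, sub_eq_zero] at h0
    apply hA
    refine ⟨k, ?_⟩
    rw [← h0, mul_one] at hkw
    exact hkw

end Pool.Agent.V1144.Pw
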