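import Pool.Agent.V1144.Pw.Geo

/-!
# Decompositions which are compatible with the Lefschetz operator modulo numerical equivalence
-/

open CategoryTheory AlgebraicGeometry Finset

set_option linter.unusedSectionVars false
set_option linter.unusedVariables false

universe u v

namespace Pool.Agent.V1144.Pw

open Pool.Agent.H914 Pool.Agent.H914.VarClass Pool.Agent.H914.VarClass.Obj
  Pool.Agent.H914.WeilCohomology Pool.Agent.H281R3.HT Pool.Agent.Y129

variable {k : Type u} [Field k] {𝒱 : VarClass k} {ops : CycleOps 𝒱}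
  {W : WeilCohomology.{u, v} ops} {X Y Z : 𝒱.Obj}

/-- The Lefschetz operator. -/
noncomputable abbrev lef (W : WeilCohomology.{u, v} ops) (E : Y.Cycles) :
    Module.End W.K (W.H Y) := LinearMap.mulLeft W.K (W.cl Y E)

/-- The idempotents `q b` are a decomposition of the identity which is compatible with the
Lefschetz operator modulo numerical equivalence. -/
structure Blk (W : WeilCohomology.{u, v} ops) (Y : 𝒱.Obj) (E : Y.Cycles) {ι : Type} [Fintype ι]
    (q : ι → Module.End W.K (W.H Y)) : Prop where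
  mem : ∀ b, q b ∈ KOp W Y Y 0
  idem : ∀ b, q b * q b = q b
  sum : ∑ b, q b = 1
  comm : ∀ b, q b * lef W E - lef W E * q b ∈ perp (CC W) Y Y

lemma lef_mem {E : Y.Cycles} (hE : Y.IsCyc 1 E) : lef W E ∈ KOp W Y Y 1 := by
  rw [← mem_KS_iff]
  exact Submodule.subset_span (by simpa using rop_mulLeft (W := W) hE)

lemma cc_mul {x y : Module.End W.K (W.H X)} (hx : x ∈ CC W X X) (hy : y ∈ CC W X X) :
    x * y ∈ CC W X X := isCat_CC.comp_mem hx hy

lemma cc_pow {x : Module.End W.K (W.H X)} (hx : x ∈ CC W X X) (m : ℕ) : x ^ m ∈ CC W X X := by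
  induction m with
  | zero => exact isCat_CC.id_mem X
  | succ m ih => rw [pow_succ]; exact cc_mul ih hx

lemma comm_pow_id {R : Type*} [Ring R] (Q L : R) (m : ℕ) : Q * L ^ (m + 1) - L ^ (m + 1) * Q =
    (Q * L ^ m - L ^ m * Q) * L + L ^ m * (Q * L - L * Q) := by
  rw [pow_succ]; noncomm_ring

lemma perp_comm_pow {Q L : Module.End W.K (W.H X)} (hL : L ∈ CC W X X)
    (hc : Q * L - L * Q ∈ perp (CC W) X X) (m : ℕ) :
    Q * L ^ m - L ^ m * Q ∈ perp (CC W) X X := by
  induction m with
  | zero => rw [pow_zero, mul_one, one_mul, sub_self]; exact Submodule.zero_mem _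
  | succ m ih =>
    rw [comm_pow_id]
    exact Submodule.add_mem _ (perp_mul_right hL ih) (perp_mul_left (cc_pow hL m) hc)

section Lin

variable {K : Type*} [Field K] {V : Type*} [AddCommGroup V] [Module K V] [Module.Finite K V]

lemma finrank_map_sum_le {ι : Type*} (s : Finset ι) (f : ι → Module.End K V)
    (U : Submodule K V) :
    Module.finrank K (U.map (∑ b ∈ s, f b)) ≤ ∑ b ∈ s, Module.finrank K (U.map (f b)) := by
  classical
  induction s using Finset.induction_on with
  | empty =>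
    have : U.map (0 : Module.End K V) = ⊥ := Submodule.map_zero U
    rw [Finset.sum_empty, Finset.sum_empty, this, finrank_bot]
  | insert a s ha ih =>
    rw [Finset.sum_insert ha, Finset.sum_insert ha]
    have h1 : U.map (f a + ∑ b ∈ s, f b) ≤ U.map (f a) ⊔ U.map (∑ b ∈ s, f b) := by
      rintro _ ⟨x, hx, rfl⟩
      rw [LinearMap.add_apply]
      exact Submodule.add_mem_sup ⟨x, hx, rfl⟩ ⟨x, hx, rfl⟩
    calc _ ≤ Module.finrank K ↥(U.map (f a) ⊔ U.map (∑ b ∈ s, f b)) := Submodule.finrank_mono h1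
      _ ≤ Module.finrank K (U.map (f a)) + Module.finrank K (U.map (∑ b ∈ s, f b)) :=
        Submodule.finrank_add_le_finrank_add_finrank _ _
      _ ≤ _ := by omega

lemma rk_eq {gr : ℕ → Submodule K V} (h : DirectSum.IsInternal gr) (Q : Module.End K V) (i : ℕ) :
    rk h Q i = Module.finrank K ((gr i).map Q) := by
  rw [rk]
  have : LinearMap.range (Q * proj h i) = (gr i).map Q := by
    change LinearMap.range (Q ∘ₗ proj h i) = _
    rw [LinearMap.range_comp, range_proj]
  rw [this]

end Lin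

/-- **The bound for the fixed space.** -/
theorem fix_le {E : Y.Cycles} (hE : Y.IsCyc 1 E) {ι : Type} [Fintype ι]
    {q : ι → Module.End W.K (W.H Y)} (hq : Blk W Y E q) {i : ℕ} (hi : i ≤ Y.dim)
    {γ : Module.End W.K (W.H Y)} (hγ : γ ∈ KOp W Y Y (-((Y.dim - i : ℕ) : ℤ)))
    {F : Submodule W.K (W.H Y)} (hF : F ≤ W.gr Y i)
    (hfix : ∀ x ∈ F, γ ((lef W E ^ (Y.dim - i)) x) = x) :
    Module.finrank W.K F ≤ ∑ b, min (rk (W.isInternal Y) (q b) i)
      (rk (W.isInternal Y) (q b) (2 * Y.dim - i)) := by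
  classical
  set m := Y.dim - i with hm
  set L := lef W E with hL
  have hLO : L ∈ KOp W Y Y 1 := lef_mem hE
  have hLC : L ∈ CC W Y Y := KOp.le_CC _ hLO
  have hLh : IsHom (W.gr Y) (2 * (1 : ℤ)) L := KOp.isHom hLO
  have hγC : γ ∈ CC W Y Y := KOp.le_CC _ hγ
  have hqC : ∀ b, q b ∈ CC W Y Y := fun b => KOp.le_CC _ (hq.mem b)
  set G := ∑ b, q b * L ^ m * q b with hG
  have hGC : G ∈ CC W Y Y := Submodule.sum_mem _ fun b _ =>
    cc_mul (cc_mul (hqC b) (cc_pow hLC m)) (hqC b)
  have hU : γ * (L ^ m - G) ∈ perp (CC W) Y Y := by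
    apply perp_mul_left hγC
    have e1 : L ^ m - G = -∑ b, (q b * L ^ m - L ^ m * q b) * q b := by
      have h1 : L ^ m = ∑ b, L ^ m * (q b * q b) := by
        simp only [hq.idem]
        rw [← Finset.mul_sum, hq.sum, mul_one]
      have h2 : ∑ b, (q b * L ^ m - L ^ m * q b) * q b = G - ∑ b, L ^ m * (q b * q b) := by
        rw [hG, ← Finset.sum_sub_distrib]
        refine Finset.sum_congr rfl fun b _ => ?_
        rw [sub_mul, mul_assoc (L ^ m)]
      rw [h2, ← h1, neg_sub]
    rw [e1]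
    exact Submodule.neg_mem _ (Submodule.sum_mem _ fun b _ =>
      perp_mul_right (hqC b) (perp_comm_pow hLC (hq.comm b) m))
  obtain ⟨r, hr⟩ := nilp_of_perp
    (cc_mul hγC (Submodule.sub_mem _ (cc_pow hLC m) hGC)) hU
  set f : F →ₗ[W.K] W.H Y := (γ * G).domRestrict F with hf
  have hinj : Function.Injective f := by
    rw [← LinearMap.ker_eq_bot, LinearMap.ker_eq_bot']
    rintro ⟨x, hx⟩ h0
    have h0' : (γ * G) x = 0 := h0
    have h1 : (γ * (L ^ m - G)) x = x := by
      rw [mul_sub, LinearMap.sub_apply, h0', sub_zero]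
      exact hfix x hx
    have h2 : ∀ r : ℕ, ((γ * (L ^ m - G)) ^ r) x = x := by
      intro r
      induction r with
      | zero => rfl
      | succ r ih => rw [pow_succ, Module.End.mul_apply, h1, ih]
    apply Subtype.ext
    change x = 0
    rw [← h2 r, hr, LinearMap.zero_apply]
  have h1 : Module.finrank W.K F ≤ Module.finrank W.K ((W.gr Y i).map (γ * G)) := by
    rw [← LinearMap.finrank_range_of_inj hinj]
    apply Submodule.finrank_mono
    rintro _ ⟨⟨x, hx⟩, rfl⟩
    exact ⟨x, hF hx, rfl⟩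
  have h2 : Module.finrank W.K ((W.gr Y i).map (γ * G)) ≤
      Module.finrank W.K ((W.gr Y i).map G) := by
    have : (W.gr Y i).map (γ * G) = ((W.gr Y i).map G).map γ := Submodule.map_comp G γ _
    rw [this]
    exact Submodule.finrank_map_le γ _
  refine h1.trans (h2.trans ((finrank_map_sum_le _ _ _).trans (Finset.sum_le_sum fun b _ => ?_)))
  apply le_min
  · rw [rk_eq]
    have : (W.gr Y i).map (q b * L ^ m * q b) = ((W.gr Y i).map (q b)).map (q b * L ^ m) :=
      Submodule.map_comp (q b) (q b * L ^ m) _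
    rw [this]
    exact Submodule.finrank_map_le _ _
  · rw [rk_eq]
    apply Submodule.finrank_mono
    rintro _ ⟨x, hx, rfl⟩
    rw [mul_assoc, Module.End.mul_apply]
    refine ⟨_, ?_, rfl⟩
    have h3 : IsHom (W.gr Y) (2 * (0 : ℤ)) (q b) := KOp.isHom (hq.mem b)
    have h4 := h3 i x (by rw [grZ_natCast]; exact hx)
    have h5 := hLh.pow m (i + 2 * 0) _ h4
    rw [show (i : ℤ) + 2 * 0 + m * (2 * 1) = ((2 * Y.dim - i : ℕ) : ℤ) by
      push_cast [Nat.cast_sub (show i ≤ 2 * Y.dim by omega), hm, Nat.cast_sub hi]; ring,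
      grZ_natCast] at h5
    exact h5

/-- The product of two decompositions. -/
theorem Blk.prod (hX : ParAlg W X) (hY : ParAlg W Y) {D : X.Cycles} {E : Y.Cycles}
    (hE : Y.IsCyc 1 E) {ι κ : Type} [Fintype ι] [Fintype κ] {q : ι → Module.End W.K (W.H X)}
    {r : κ → Module.End W.K (W.H Y)} (hD : X.IsCyc 1 D) (hq : Blk W X D q) (hr : Blk W Y E r) :
    Blk W (X.prod Y) (ops.pull (fst X Y) D + ops.pull (snd X Y) E)
      (fun b : ι × κ => extOp W (q b.1) (r b.2)) where
  mem b := KOp.cast (KOp.ext (hq.mem b.1) (hr.mem b.2)) (by ring)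
  idem b := by rw [extOp_mul, hq.idem, hr.idem]
  sum := by
    rw [Fintype.sum_prod_type]
    simp only [← extOp_sum', ← extOp_sum]
    rw [hr.sum, hq.sum, extOp_one]
  comm b := by
    have hLX : lef W D ∈ CC W X X := KOp.le_CC _ (lef_mem hD)
    have hLY : lef W E ∈ CC W Y Y := KOp.le_CC _ (lef_mem hE)
    have hqC : q b.1 ∈ CC W X X := KOp.le_CC _ (hq.mem b.1)
    have hrC : r b.2 ∈ CC W Y Y := KOp.le_CC _ (hr.mem b.2)
    have e1 : lef W (ops.pull (fst X Y) D + ops.pull (snd X Y) E) =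
        extOp W (lef W D) 1 + extOp W 1 (lef W E) := mulLeft_prod hE
    have e2 : extOp W (q b.1) (r b.2) * (extOp W (lef W D) 1 + extOp W 1 (lef W E)) -
        (extOp W (lef W D) 1 + extOp W 1 (lef W E)) * extOp W (q b.1) (r b.2) =
        extOp W (q b.1 * lef W D - lef W D * q b.1) 1 * extOp W 1 (r b.2) +
        extOp W 1 (r b.2 * lef W E - lef W E * r b.2) * extOp W (q b.1) 1 := by
      have s1 : ∀ (x y : Module.End W.K (W.H X)) (z : Module.End W.K (W.H Y)),
          extOp W (x - y) z = extOp W x z - extOp W y z := by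
        intro x y z
        rw [eq_sub_iff_add_eq, ← extOp_add_left, sub_add_cancel]
      have s2 : ∀ (x : Module.End W.K (W.H X)) (y z : Module.End W.K (W.H Y)),
          extOp W x (y - z) = extOp W x y - extOp W x z := by
        intro x y z
        rw [eq_sub_iff_add_eq, ← extOp_add_right, sub_add_cancel]
      rw [mul_add, add_mul]
      simp only [extOp_mul, mul_one, one_mul]
      simp only [s1, s2]
      abel
    rw [e1, e2]
    refine Submodule.add_mem _ ?_ ?_
    · exact perp_mul_right (CC.ext (isCat_CC.id_mem X) hrC) (perp_ext hX hY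
        (Submodule.sub_mem _ (cc_mul hqC hLX) (cc_mul hLX hqC)) (hq.comm b.1))
    · exact perp_mul_right (CC.ext hqC (isCat_CC.id_mem Y)) (perp_ext' hX hY
        (Submodule.sub_mem _ (cc_mul hrC hLY) (cc_mul hLY hrC)) (hr.comm b.2))

end Pool.Agent.V1144.Pw
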