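import Pool.Agent.Y106.One.Defs
import Pool.Agent.V1144.Pw.Defs

/-!
# Proportions in the powers of a variety: definitions
-/

open CategoryTheory AlgebraicGeometry Filter

universe u v

namespace Pool.Agent.V1144.Pw

section Alg

variable {K V : Type*} [Field K] [AddCommGroup V] [Module K V]

/-- The operator `T` is the identity on a subspace of `U` of dimension at least `ε * dim U`. -/
def FixesShare (U : Submodule K V) (T : V →ₗ[K] V) (ε : ℝ) : Prop :=
  ∃ F ≤ U, (∀ a ∈ F, T a = a) ∧ ε * (Module.finrank K U : ℝ) ≤ (Module.finrank K F : ℝ)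

/-- The operator `T` is the identity on no subspace of `U` of dimension larger than
`δ * dim U`. -/
def FixesAtMostShare (U : Submodule K V) (T : V →ₗ[K] V) (δ : ℝ) : Prop :=
  ∀ F ≤ U, (∀ a ∈ F, T a = a) → (Module.finrank K F : ℝ) ≤ δ * (Module.finrank K U : ℝ)

end Alg

open Pool.Agent.H914 Pool.Agent.H914.VarClass Pool.Agent.H914.VarClass.Obj
  Pool.Agent.H914.WeilCohomology Pool.Agent.Y106.One

variable {k : Type u} [Field k] {𝒱 : VarClass k} {ops : CycleOps 𝒱}

/-- For all degrees `i ≤ N = dim Y` there is a linear combination of cycles of codimension `i` on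
`Y × Y`, with coefficients in the coefficient field of the theory, which inverts `ξ ^ (N - i)` on a
subspace of `H^i(Y)` of dimension at least `ε * dim H^i(Y)`, where `ξ` is the class of `E`. -/
def InvertsShare (W : WeilCohomology.{u, v} ops) (Y : 𝒱.Obj) (E : Y.Cycles) (ε : ℝ) : Prop :=
  ∀ i ≤ Y.dim, ∃ γ ∈ spanCycles W (Y.prod Y) (i : ℤ),
    FixesShare (W.gr Y i) (corrLef W Y E i γ) ε

/-- For no linear combination `γ` of cycles of codimension `i` on `Y × Y` the operator
`ξ ^ (dim Y - i)` is inverted on a subspace of `H^i(Y)` of dimension larger than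
`δ * dim H^i(Y)`. -/
def InvertsAtMostShare (W : WeilCohomology.{u, v} ops) (Y : 𝒱.Obj) (E : Y.Cycles) (i : ℕ)
    (δ : ℝ) : Prop :=
  ∀ γ ∈ spanCycles W (Y.prod Y) (i : ℤ), FixesAtMostShare (W.gr Y i) (corrLef W Y E i γ) δ

/-- The Lefschetz standard conjecture for all powers of `X`. -/
def PowersB (W : WeilCohomology.{u, v} ops) (X : 𝒱.Obj) (D : X.Cycles) : Prop :=
  ∀ m, LefschetzB W (pow X m) (powDiv ops D m)

/-- The Lefschetz operators of all powers of `X` are inverted on one positive share of the
cohomology. -/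
def PowersPositive (W : WeilCohomology.{u, v} ops) (X : 𝒱.Obj) (D : X.Cycles) : Prop :=
  ∃ ε : ℝ, 0 < ε ∧ ∀ m, InvertsShare W (pow X m) (powDiv ops D m) ε

/-- For every `ρ < 1` there are infinitely many powers `X ^ (m + 1)` of `X` for which the Lefschetz
operators are inverted on the share `ρ ^ m` of the cohomology. -/
def PowersSubexponential (W : WeilCohomology.{u, v} ops) (X : 𝒱.Obj) (D : X.Cycles) : Prop :=
  ∀ ρ : ℝ, 0 < ρ → ρ < 1 →
    ∃ᶠ m : ℕ in atTop, InvertsShare W (pow X m) (powDiv ops D m) (ρ ^ m)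

/-- The algebraic inverses are exponentially small: there is `ρ < 1` such that for every power
`Y = X ^ (m + 1)` there is a degree `i ≤ N = dim Y` with `H^i(Y) ≠ 0` in which the algebraic inverses
of `ξ ^ (N - i)` reach at most the share `(2 N + 1) ρ ^ (m + 1)` of the cohomology, where
`N = (dim X) (m + 1)`. -/
def PowersExponentiallySmall (W : WeilCohomology.{u, v} ops) (X : 𝒱.Obj) (D : X.Cycles) : Prop :=
  ∃ ρ : ℝ, 0 ≤ ρ ∧ ρ < 1 ∧ ∀ m : ℕ, ∃ i ≤ (pow X m).dim, 0 < W.betti (pow X m) i ∧
    InvertsAtMostShare W (pow X m) (powDiv ops D m) i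
      ((2 * (X.dim * (m + 1)) + 1) * ρ ^ (m + 1))

/-- A class of varieties with a divisor for which hard Lefschetz and the conjecture C hold, which is
stable under products (with the sum of the pull-backs of the divisors). -/
structure PolarizedClass (W : WeilCohomology.{u, v} ops) (Pol : ∀ X : 𝒱.Obj, X.Cycles → Prop) :
    Prop where
  /-- The members of the class are divisors, which satisfy hard Lefschetz. -/
  lef : ∀ X D, Pol X D → X.IsCyc 1 D ∧ HardLefschetz W X D
  /-- The conjecture C holds. -/
  kunneth : ∀ X D, Pol X D → KunnethSpan W X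
  /-- The class is stable under products. -/
  prod : ∀ X Y D E, Pol X D → Pol Y E →
    Pol (X.prod Y) (ops.pull (fst X Y) D + ops.pull (snd X Y) E)

end Pool.Agent.V1144.Pw
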