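import Pool.Agent.V1144.Pw.Ind
import Pool.Agent.Y129.Corr
import Pool.Agent.H914R2.Span
import Pool.Agent.H914R2.PProd

/-!
# Algebraic operators on products and numerical equivalence
-/

open CategoryTheory AlgebraicGeometry Finset

set_option linter.unusedSectionVars false
set_option linter.unusedVariables false

universe u v

namespace Pool.Agent.V1144.Pw

open Pool.Agent.H914 Pool.Agent.H914.VarClass Pool.Agent.H914.VarClass.Obj
  Pool.Agent.H914.WeilCohomology Pool.Agent.H281R3.HT Pool.Agent.Y129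

variable {k : Type u} [Field k] {𝒱 : VarClass k} {ops : CycleOps 𝒱}
  {W : WeilCohomology.{u, v} ops} {X Y Z : 𝒱.Obj}

/-- The Künneth projectors are algebraic, with coefficients. -/
def KSpan (W : WeilCohomology.{u, v} ops) (X : 𝒱.Obj) : Prop :=
  ∀ i, proj (W.isInternal X) i ∈ KOp W X X 0

lemma galg (hC : KSpan W X) : GAlg (W.isInternal X) (KOp W X X) where
  one := KOp.id X
  mul := fun hx hy => KOp.cast (KOp.comp hx hy) (add_comm _ _)
  hom := fun hx => KOp.isHom hx
  proj := hC

lemma parAlg (hC : KSpan W X) : ParAlg W X := by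
  refine KOp.le_CC 0 ?_
  change par (W.isInternal X) ∈ KOp W X X 0
  rw [par, scal_eq_sum (W.isInternal X) (N := 2 * X.dim + 1) (fun i hi => W.gr_eq_bot X i (by omega))]
  exact Submodule.sum_mem _ fun i _ => Submodule.smul_mem _ _ (hC i)

/-- The external product commutes with the projectors. -/
lemma proj_prod (i : ℕ) : proj (W.isInternal (X.prod Y)) i =
    ∑ p ∈ HasAntidiagonal.antidiagonal i, extOp W (proj (W.isInternal X) p.1) (proj (W.isInternal Y) p.2) := by
  apply LinearMap.ext
  intro c
  refine W.kunneth_induction (p := fun c => proj (W.isInternal (X.prod Y)) i c =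
    (∑ p ∈ HasAntidiagonal.antidiagonal i, extOp W (proj (W.isInternal X) p.1)
      (proj (W.isInternal Y) p.2)) c) ?_ ?_ c
  · intro a b ha hb
    rw [map_add, map_add, ha, hb]
  · intro l m a ha b hb
    have hab : W.map (fst X Y) a * W.map (snd X Y) b ∈ W.gr (X.prod Y) (l + m) :=
      W.mul_mem (W.map_mem (fst X Y) ha) (W.map_mem (snd X Y) hb)
    rw [LinearMap.sum_apply]
    simp only [extOp_tmul]
    by_cases hi : l + m = i
    · subst hi
      rw [proj_same _ hab, Finset.sum_eq_single (l, m)]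
      · rw [proj_same _ ha, proj_same _ hb]
      · rintro ⟨p, q⟩ hpq hne
        rw [HasAntidiagonal.mem_antidiagonal] at hpq
        by_cases hp : l = p
        · subst hp
          have : m ≠ q := by
            rintro rfl
            exact hne rfl
          rw [proj_ne _ hb this, map_zero, mul_zero]
        · rw [proj_ne _ ha hp, map_zero, zero_mul]
      · intro h
        exact absurd (HasAntidiagonal.mem_antidiagonal.2
          (show (l, m).1 + (l, m).2 = l + m from rfl)) h
    · rw [proj_ne _ hab hi]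
      symm
      apply Finset.sum_eq_zero
      rintro ⟨p, q⟩ hpq
      rw [HasAntidiagonal.mem_antidiagonal] at hpq
      by_cases hp : l = p
      · subst hp
        have : m ≠ q := by
          rintro rfl
          exact hi hpq
        rw [proj_ne _ hb this, map_zero, mul_zero]
      · rw [proj_ne _ ha hp, map_zero, zero_mul]

lemma KSpan.prod (hX : KSpan W X) (hY : KSpan W Y) : KSpan W (X.prod Y) := by
  intro i
  rw [proj_prod]
  exact Submodule.sum_mem _ fun p _ => KOp.cast (KOp.ext (hX _) (hY _)) (by ring)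

/-- The radical in terms of all operators. -/
lemma perp_of_rad {d : ℤ} {x : Module.End W.K (W.H X)} (hx : Rad (KOp W X X) d x) :
    x ∈ CC W X X ∧ x ∈ perp (CC W) X X := by
  refine ⟨KOp.le_CC d hx.1, fun g hg => ?_⟩
  refine Submodule.iSup_induction (fun d : ℤ => KOp W X X d)
    (motive := fun g => LinearMap.trace W.K (W.H X) (g ∘ₗ x) = 0) hg ?_ ?_ ?_
  · intro e g hg
    by_cases he : e = -d
    · exact hx.2 g (by rw [← he]; exact hg)
    · have h1 : IsHom (W.gr X) (2 * (e + d)) (g * x) := by
        have h2 : IsHom (W.gr X) (2 * e) g := KOp.isHom hg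
        have h3 : IsHom (W.gr X) (2 * d) x := KOp.isHom hx.1
        have := h2.mul h3
        rwa [← mul_add] at this
      exact trace_of_isHom (W.isInternal X) (by omega) h1
  · rw [LinearMap.zero_comp, map_zero]
  · intro a b ha hb
    rw [LinearMap.add_comp, map_add, ha, hb, add_zero]

lemma rad_of_perp {d : ℤ} {x : Module.End W.K (W.H X)} (hx : x ∈ KOp W X X d)
    (hp : x ∈ perp (CC W) X X) : Rad (KOp W X X) d x :=
  ⟨hx, fun y hy => hp y (KOp.le_CC _ hy)⟩

lemma perp_mul_left {x y : Module.End W.K (W.H X)} (hy : y ∈ CC W X X)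
    (hx : x ∈ perp (CC W) X X) : y * x ∈ perp (CC W) X X := by
  intro g hg
  exact hx (g ∘ₗ y) (isCat_CC.comp_mem hg hy)

lemma perp_mul_right {x y : Module.End W.K (W.H X)} (hy : y ∈ CC W X X)
    (hx : x ∈ perp (CC W) X X) : x * y ∈ perp (CC W) X X := by
  intro g hg
  have h1 := hx (y ∘ₗ g) (isCat_CC.comp_mem hy hg)
  change LinearMap.trace W.K (W.H X) (g * (x * y)) = 0
  rw [← mul_assoc, LinearMap.trace_mul_comm, ← mul_assoc]
  exact h1

/-- Operators in the radical are nilpotent. -/
lemma nilp_of_perp {x : Module.End W.K (W.H X)} (hx : x ∈ CC W X X)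
    (hp : x ∈ perp (CC W) X X) : IsNilpotent x := by
  apply isNilpotent_of_trace_pow
  intro r
  rw [pow_succ]
  refine hp _ ?_
  induction r with
  | zero => exact isCat_CC.id_mem X
  | succ r ih => rw [pow_succ]; exact isCat_CC.comp_mem ih hx

lemma algSpan_gen {p : ℕ} {z : X.Cycles} (hz : X.IsCyc p z) : W.cl X z ∈ algSpan W X :=
  Submodule.subset_span (Set.mem_iUnion.2 ⟨p, z, hz, rfl⟩)

lemma algSpan_induction {p : W.H X → Prop} (hcl : ∀ q z, X.IsCyc q z → p (W.cl X z))
    (hadd : ∀ a b, p a → p b → p (a + b)) (hsmul : ∀ (c : W.K) a, p a → p (c • a)) {a : W.H X}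
    (ha : a ∈ algSpan W X) : p a := by
  induction ha using Submodule.span_induction with
  | mem x hx =>
    obtain ⟨q, z, hz, rfl⟩ := Set.mem_iUnion.1 hx
    exact hcl q z hz
  | zero =>
    have := hcl 0 0 (SmVar.IsCyc.zero _ _)
    rwa [map_zero] at this
  | add x y _ _ hx hy => exact hadd _ _ hx hy
  | smul c x _ hx => exact hsmul _ _ hx

lemma algSpan_map (f : X ⟶ Y) {a : W.H Y} (ha : a ∈ algSpan W Y) : W.map f a ∈ algSpan W X := by
  refine algSpan_induction (p := fun a => W.map f a ∈ algSpan W X) ?_ ?_ ?_ ha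
  · intro q z hz
    rw [← W.cl_pull]
    exact algSpan_gen (ops.pull_mem f hz)
  · intro a b ha hb
    rw [map_add]; exact Submodule.add_mem _ ha hb
  · intro c a ha
    rw [map_smul]; exact Submodule.smul_mem _ _ ha

lemma algSpan_mul {a b : W.H X} (ha : a ∈ algSpan W X) (hb : b ∈ algSpan W X) :
    a * b ∈ algSpan W X := by
  refine algSpan_induction (p := fun a => a * b ∈ algSpan W X) ?_ ?_ ?_ ha
  · intro q z hz
    refine algSpan_induction (p := fun b => W.cl X z * b ∈ algSpan W X) ?_ ?_ ?_ hb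
    · intro q' w hw
      rw [← W.cl_mul]
      exact algSpan_gen (ops.mul_mem hz hw)
    · intro a b ha hb
      rw [mul_add]; exact Submodule.add_mem _ ha hb
    · intro c a ha
      rw [mul_smul_comm]; exact Submodule.smul_mem _ _ ha
  · intro a b ha hb
    rw [add_mul]; exact Submodule.add_mem _ ha hb
  · intro c a ha
    rw [smul_mul_assoc]; exact Submodule.smul_mem _ _ ha

lemma algSpan_push (f : X ⟶ Y) {a : W.H X} (ha : a ∈ algSpan W X) :
    W.push f a ∈ algSpan W Y := by
  refine algSpan_induction (p := fun a => W.push f a ∈ algSpan W Y) ?_ ?_ ?_ ha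
  · intro q z hz
    by_cases hd : X.dim ≤ q + Y.dim
    · rw [← W.cl_push]
      exact algSpan_gen (p := q + Y.dim - X.dim) (ops.push_mem f hz (by omega))
    · have h1 := W.push_mem f (W.cl_mem hz)
      rw [grZ_of_neg (by push_cast; omega), Submodule.mem_bot] at h1
      rw [h1]
      exact Submodule.zero_mem _
  · intro a b ha hb
    rw [map_add]; exact Submodule.add_mem _ ha hb
  · intro c a ha
    rw [map_smul]; exact Submodule.smul_mem _ _ ha

lemma corr_extOp' {c : W.H (X.prod X)} {δ : W.H (Y.prod Y)} (hδ : δ ∈ algSpan W (Y.prod Y)) :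
    W.corr (W.map (q1 X Y) c * W.map (q2 X Y) δ) = extOp W (W.corr c) (W.corr δ) := by
  apply ext_kunneth_lin
  intro a b
  rw [extOp_tmul]
  refine algSpan_induction (p := fun δ => W.corr (W.map (q1 X Y) c * W.map (q2 X Y) δ)
    (W.map (fst X Y) a * W.map (snd X Y) b) =
    W.map (fst X Y) (W.corr c a) * W.map (snd X Y) (W.corr δ b)) ?_ ?_ ?_ hδ
  · intro q z hz
    exact corr_ext c (W.cl_mem hz) a b
  · intro d d' hd hd'
    rw [map_add, mul_add, corr_add, LinearMap.add_apply, hd, hd', corr_add,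
      LinearMap.add_apply, map_add, mul_add]
  · intro r d hd
    rw [map_smul, mul_smul_comm, corr_smul, LinearMap.smul_apply, hd, corr_smul,
      LinearMap.smul_apply, map_smul, mul_smul_comm]

/-- The class of a numerically trivial operator is numerically trivial. -/
lemma tr_of_perp (hX : ParAlg W X) {c : W.H (X.prod X)} (hp : W.corr c ∈ perp (CC W) X X)
    {d : W.H (X.prod X)} (hd : d ∈ algSpan W (X.prod X)) : W.tr (X.prod X) (c * d) = 0 := by
  rw [tr_mul_eq]
  have h1 := hp (opL W X X d ∘ₗ pa W X) (isCat_CC.comp_mem (opL_mem hd) hX)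
  have h2 : LinearMap.trace W.K (W.H X) (opL W X X d * pa W X * W.corr c) = 0 := h1
  change LinearMap.trace W.K (W.H X) (pa W X * (W.corr c * opL W X X d)) = 0
  rw [← mul_assoc, LinearMap.trace_mul_comm, ← mul_assoc]
  exact h2

/-- An operator with a numerically trivial class is numerically trivial. -/
lemma perp_of_tr (hX : ParAlg W X) {c : W.H (X.prod X)}
    (hc : ∀ d ∈ algSpan W (X.prod X), W.tr (X.prod X) (c * d) = 0) :
    W.corr c ∈ perp (CC W) X X := by
  intro g hg
  have hgp : g ∘ₗ pa W X ∈ CC W X X := isCat_CC.comp_mem hg hX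
  rw [← map_opL] at hgp
  obtain ⟨d, hd, hdg⟩ := hgp
  have h1 := tr_mul_eq c d
  rw [hdg, hc d hd] at h1
  have h4 : LinearMap.trace W.K (W.H X) (pa W X * (W.corr c * (g * pa W X))) = 0 := h1.symm
  change LinearMap.trace W.K (W.H X) (g * W.corr c) = 0
  have h5 : pa W X * (W.corr c * (g * pa W X)) = pa W X * (W.corr c * g) * pa W X := by
    simp only [mul_assoc]
  rw [h5, LinearMap.trace_mul_comm, ← mul_assoc, par_mul_par, one_mul,
    LinearMap.trace_mul_comm] at h4
  exact h4

/-- Numerically trivial operators on the first factor are numerically trivial. -/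
theorem perp_ext (hX : ParAlg W X) (hY : ParAlg W Y) {f : Module.End W.K (W.H X)}
    (hf : f ∈ CC W X X) (hp : f ∈ perp (CC W) X X) :
    extOp W f (1 : Module.End W.K (W.H Y)) ∈ perp (CC W) (X.prod Y) (X.prod Y) := by
  obtain ⟨c, hc, rfl⟩ := exists_corr_eq hf
  obtain ⟨δ, hδ, hδ1⟩ := exists_corr_eq (W := W) (isCat_CC.id_mem Y)
  have h0 : extOp W (W.corr c) (1 : Module.End W.K (W.H Y)) =
      W.corr (W.map (q1 X Y) c * W.map (q2 X Y) δ) := by
    rw [corr_extOp' hδ, hδ1]
    rfl
  rw [h0]
  apply perp_of_tr (hX.prod hY)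
  intro d hd
  have h3 : W.map (q2 X Y) δ * d ∈ algSpan W ((X.prod Y).prod (X.prod Y)) :=
    algSpan_mul (algSpan_map _ hδ) hd
  rw [mul_assoc, ← algSpan_even h3, ← W.tr_push, algSpan_even (algSpan_push _ h3)]
  exact tr_of_perp hX hp (algSpan_push _ h3)

/-- Numerically trivial operators on the second factor are numerically trivial. -/
theorem perp_ext' (hX : ParAlg W X) (hY : ParAlg W Y) {f : Module.End W.K (W.H Y)}
    (hf : f ∈ CC W Y Y) (hp : f ∈ perp (CC W) Y Y) :
    extOp W (1 : Module.End W.K (W.H X)) f ∈ perp (CC W) (X.prod Y) (X.prod Y) := by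
  obtain ⟨c, hc, rfl⟩ := exists_corr_eq hf
  obtain ⟨δ, hδ, hδ1⟩ := exists_corr_eq (W := W) (isCat_CC.id_mem X)
  have h0 : extOp W (1 : Module.End W.K (W.H X)) (W.corr c) =
      W.corr (W.map (q1 X Y) δ * W.map (q2 X Y) c) := by
    rw [corr_extOp' hc, hδ1]
    rfl
  rw [h0]
  apply perp_of_tr (hX.prod hY)
  intro d hd
  have h3 : W.map (q1 X Y) δ * d ∈ algSpan W ((X.prod Y).prod (X.prod Y)) :=
    algSpan_mul (algSpan_map _ hδ) hd
  rw [algSpan_even (algSpan_map _ hδ), mul_assoc, ← algSpan_even h3, ← W.tr_push,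
    algSpan_even (algSpan_push _ h3)]
  exact tr_of_perp hY hp (algSpan_push _ h3)

end Pool.Agent.V1144.Pw
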