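import Pool.Agent.V1144.Pw.Str

/-!
# The inverse of `L` modulo the radical if all idempotents have symmetric ranks
-/

open Polynomial Finset

set_option linter.unusedSectionVars false
set_option linter.unusedVariables false

namespace Pool.Agent.V1144.Pw

open Pool.Agent.H914

variable {K : Type*} [Field K] [CharZero K] {V : Type*} [AddCommGroup V] [Module K V]
  [Module.Finite K V] {gr : ℕ → Submodule K V}
  {h : DirectSum.IsInternal gr} {O : ℤ → Submodule K (Module.End K V)}
  {Q M e S : Module.End K V} {a j : ℕ}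

/-- The members of the string. -/
def EE (M e S : Module.End K V) (a l : ℕ) : Module.End K V := M ^ l * e * S * M ^ (a - l)

/-- The idempotent of the string. -/
def PP (M e S : Module.End K V) (a : ℕ) : Module.End K V := ∑ l ∈ range (a + 1), EE M e S a l

namespace Str

variable (s : Str h O Q M a j e S) (hO : GAlg h O) (hM : M ∈ O 1) (hQM : Q * M = M)
  (hMQ : M * Q = M) (hQ : Q ∈ O 0)

include hO hM

lemma hMb (b : ℕ) : IsHom gr (2 * (b : ℤ)) (M ^ b) := by
  have := hO.hom (hO.pow hM b)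
  rwa [mul_one] at this

include s

lemma SMb {b : ℕ} (hb : b ≠ a) : S * (M ^ b * e) = 0 := by
  have h1 : M ^ b * e = proj h (j + 2 * b) * (M ^ b * e) := by
    rw [← mul_assoc, proj_shift h (hMb hO hM b), mul_assoc, s.pe]
  rw [h1, ← s.Sp, mul_assoc, ← mul_assoc (proj h (j + 2 * a)), proj_mul_ne h (by omega), zero_mul,
    mul_zero]

lemma EE_mul_same {l : ℕ} (hl : l ≤ a) : EE M e S a l * EE M e S a l = EE M e S a l := by
  have h1 : M ^ (a - l) * M ^ l = M ^ a := by rw [← pow_add, Nat.sub_add_cancel hl]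
  calc EE M e S a l * EE M e S a l
      = M ^ l * e * (S * (M ^ (a - l) * M ^ l * e)) * S * M ^ (a - l) := by
        simp only [EE, mul_assoc]
    _ = M ^ l * (e * e) * S * M ^ (a - l) := by rw [h1, s.SMe]; simp only [mul_assoc]
    _ = _ := by rw [s.e_idem, EE]

lemma EE_mul_ne {l l' : ℕ} (hl : l ≤ a) (hl' : l' ≤ a) (hne : l ≠ l') :
    EE M e S a l * EE M e S a l' = 0 := by
  have h1 : M ^ (a - l) * M ^ l' = M ^ (a - l + l') := by rw [← pow_add]
  calc EE M e S a l * EE M e S a l'
      = M ^ l * e * (S * (M ^ (a - l) * M ^ l' * e)) * S * M ^ (a - l') := by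
        simp only [EE, mul_assoc]
    _ = 0 := by rw [h1, s.SMb hO hM (by omega)]; simp

lemma PP_mul_EE {l : ℕ} (hl : l ≤ a) : PP M e S a * EE M e S a l = EE M e S a l := by
  rw [PP, Finset.sum_mul, Finset.sum_eq_single l]
  · exact s.EE_mul_same hO hM hl
  · intro b hb hbl
    exact s.EE_mul_ne hO hM (by have := Finset.mem_range.1 hb; omega) hl hbl
  · intro hl'
    exact absurd (Finset.mem_range.2 (by omega)) hl'

lemma PP_idem : PP M e S a * PP M e S a = PP M e S a := by
  conv_lhs => rw [PP, ← PP]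
  conv_lhs => enter [2]; rw [PP]
  rw [Finset.mul_sum]
  exact Finset.sum_congr rfl fun l hl =>
    s.PP_mul_EE hO hM (by have := Finset.mem_range.1 hl; omega)

lemma EE_mem {l : ℕ} (hl : l ≤ a) : EE M e S a l ∈ O 0 := by
  refine hO.memc (hO.mul (hO.mul (hO.mul (hO.pow hM l) s.e_mem) s.S_mem) (hO.pow hM (a - l))) ?_
  push_cast [Nat.cast_sub hl]
  ring

lemma PP_mem : PP M e S a ∈ O 0 :=
  Submodule.sum_mem _ fun l hl => s.EE_mem hO hM (by have := Finset.mem_range.1 hl; omega)

lemma EE_proj_same {l : ℕ} (hl : l ≤ a) :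
    EE M e S a l * proj h (j + 2 * l) = EE M e S a l := by
  have h1 : M ^ (a - l) * proj h (j + 2 * l) = proj h (j + 2 * a) * M ^ (a - l) := by
    rw [← proj_shift h (hMb hO hM (a - l)), show j + 2 * l + 2 * (a - l) = j + 2 * a by omega]
  rw [EE, mul_assoc, h1, ← mul_assoc, mul_assoc _ S, s.Sp]

lemma EE_proj_ne {l i : ℕ} (hl : l ≤ a) (hi : i ≠ j + 2 * l) :
    EE M e S a l * proj h i = 0 := by
  rw [← s.EE_proj_same hO hM hl, mul_assoc, proj_mul_ne h (Ne.symm hi), mul_zero]

lemma PP_proj_same {l : ℕ} (hl : l ≤ a) : PP M e S a * proj h (j + 2 * l) = EE M e S a l := by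
  rw [PP, Finset.sum_mul, Finset.sum_eq_single l]
  · exact s.EE_proj_same hO hM hl
  · intro b hb hbl
    exact s.EE_proj_ne hO hM (by have := Finset.mem_range.1 hb; omega) (by omega)
  · intro hl'
    exact absurd (Finset.mem_range.2 (by omega)) hl'

lemma PP_proj_ne {i : ℕ} (hi : ∀ l ≤ a, i ≠ j + 2 * l) : PP M e S a * proj h i = 0 := by
  rw [PP, Finset.sum_mul]
  exact Finset.sum_eq_zero fun l hl => s.EE_proj_ne hO hM
    (by have := Finset.mem_range.1 hl; omega) (hi l (by have := Finset.mem_range.1 hl; omega))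

lemma EE_ne {l : ℕ} (hl : l ≤ a) : EE M e S a l ≠ 0 := by
  intro h0
  apply s.e_ne
  have h1 : M ^ (a - l) * M ^ l = M ^ a := by rw [← pow_add, Nat.sub_add_cancel hl]
  calc e = e * (e * e) := by rw [s.e_idem, s.e_idem]
    _ = S * (M ^ a * e) * e * (S * (M ^ a * e)) := by rw [s.SMe, mul_assoc]
    _ = S * (M ^ (a - l) * M ^ l * e) * e * (S * (M ^ (a - l) * M ^ l * e)) := by rw [h1]
    _ = S * M ^ (a - l) * (M ^ l * e * (e * S) * M ^ (a - l)) * M ^ l * e := by
      simp only [mul_assoc]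
    _ = S * M ^ (a - l) * EE M e S a l * M ^ l * e := by rw [s.eS, EE]
    _ = 0 := by rw [h0]; simp

include hQM in
lemma Q_EE (l : ℕ) : Q * EE M e S a l = EE M e S a l := by
  cases l with
  | zero => rw [EE, pow_zero, one_mul]; simp only [← mul_assoc]; rw [s.Qe]
  | succ l =>
    rw [EE, pow_succ']; simp only [← mul_assoc]; rw [hQM]

include hMQ in
lemma EE_Q {l : ℕ} (hl : l ≤ a) : EE M e S a l * Q = EE M e S a l := by
  rcases Nat.eq_zero_or_pos (a - l) with h0 | h0
  · rw [EE, h0, pow_zero, mul_one, mul_assoc, s.SQ]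
  · obtain ⟨b, hb⟩ := Nat.exists_eq_succ_of_ne_zero h0.ne'
    rw [EE, hb, Nat.succ_eq_add_one, pow_succ, mul_assoc, mul_assoc (M ^ b), hMQ]

include hQM in
lemma Q_PP : Q * PP M e S a = PP M e S a := by
  rw [PP, Finset.mul_sum]
  exact Finset.sum_congr rfl fun l _ => s.Q_EE hO hM hQM l

include hMQ in
lemma PP_Q : PP M e S a * Q = PP M e S a := by
  rw [PP, Finset.sum_mul]
  exact Finset.sum_congr rfl fun l hl =>
    s.EE_Q hO hM hMQ (by have := Finset.mem_range.1 hl; omega)

include hQM hMQ in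
/-- The idempotent of the string commutes with `M` modulo the radical. -/
lemma comm : Rad O 1 (M * PP M e S a - PP M e S a * M) := by
  have e1 : M * PP M e S a - PP M e S a * M = M ^ (a + 1) * Q * e * S - e * S * (M ^ (a + 1) * Q) := by
    set F : ℕ → Module.End K V := fun l => M ^ l * e * S * M ^ (a + 1 - l) with hF
    have h1 : ∀ l ∈ range (a + 1), M * EE M e S a l = F (l + 1) := by
      intro l hl
      have := Finset.mem_range.1 hl
      simp only [hF, EE]
      rw [show a + 1 - (l + 1) = a - l by omega, pow_succ']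
      simp only [mul_assoc]
    have h2 : ∀ l ∈ range (a + 1), EE M e S a l * M = F l := by
      intro l hl
      have := Finset.mem_range.1 hl
      simp only [hF, EE]
      rw [show a + 1 - l = a - l + 1 by omega, pow_succ]
      simp only [mul_assoc]
    rw [PP, Finset.mul_sum, Finset.sum_mul, Finset.sum_congr rfl h1, Finset.sum_congr rfl h2,
      ← Finset.sum_sub_distrib, Finset.sum_range_sub]
    simp only [hF, pow_zero, one_mul, Nat.sub_self, mul_one, Nat.sub_zero]
    rw [mul_assoc (M ^ (a + 1)) Q e, s.Qe, pow_succ M a, mul_assoc (M ^ a) M Q, hMQ]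
  rw [e1]
  have h1 : Rad O 1 (M ^ (a + 1) * Q * e * S) :=
    (Rad.mul_right hO (Rad.mul_right hO s.rad s.e_mem) s.S_mem).cast (by ring)
  have h2 : Rad O 1 (e * S * (M ^ (a + 1) * Q)) :=
    (Rad.mul_left hO (hO.mul s.e_mem s.S_mem) s.rad).cast (by ring)
  exact h1.sub h2

/-- The inverse on the string. -/
lemma inv {l : ℕ} (hl : 2 * l ≤ a) :
    M ^ l * e * S * M ^ l * (M ^ (a - 2 * l) * EE M e S a l) = EE M e S a l := by
  have h1 : M ^ l * (M ^ (a - 2 * l) * M ^ l) = M ^ a := by
    rw [← pow_add, ← pow_add]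
    congr 1
    omega
  calc M ^ l * e * S * M ^ l * (M ^ (a - 2 * l) * EE M e S a l)
      = M ^ l * e * (S * (M ^ l * (M ^ (a - 2 * l) * M ^ l) * e)) * S * M ^ (a - l) := by
        simp only [EE, mul_assoc]
    _ = M ^ l * (e * e) * S * M ^ (a - l) := by rw [h1, s.SMe]; simp only [mul_assoc]
    _ = _ := by rw [s.e_idem, EE]

end Str

/-- The powers of `M = Q L Q` and of `L` agree on the range of `Q` modulo the radical. -/
lemma rad_pow (hO : GAlg h O) {L : Module.End K V} (hL : L ∈ O 1) (hQ : Q ∈ O 0)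
    (hQQ : Q * Q = Q) (hc : Rad O 1 (Q * L - L * Q)) (b : ℕ) :
    Rad O b (L ^ b * Q - (Q * L * Q) ^ b * Q) := by
  set M := Q * L * Q with hM
  have hMO : M ∈ O 1 := hO.memc (hO.mul (hO.mul hQ hL) hQ) (by ring)
  have hQM : Q * M = M := by rw [hM, ← mul_assoc, ← mul_assoc, hQQ]
  induction b with
  | zero => rw [pow_zero, pow_zero, sub_self]; exact Rad.zero _
  | succ b ih =>
    have h2 : Q * (M ^ b * Q) = M ^ b * Q := by
      cases b with
      | zero => rw [pow_zero, one_mul, hQQ]
      | succ b => rw [pow_succ', mul_assoc, ← mul_assoc, hQM]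
    have e1 : L ^ (b + 1) * Q - M ^ (b + 1) * Q =
        L * (L ^ b * Q - M ^ b * Q) - (Q * L - L * Q) * (M ^ b * Q) := by
      have h3 : M ^ (b + 1) * Q = Q * L * (M ^ b * Q) := by
        rw [pow_succ', mul_assoc, hM, mul_assoc (Q * L) Q, h2]
      have h4 : L * (M ^ b * Q) = L * Q * (M ^ b * Q) := by rw [mul_assoc L Q, h2]
      rw [h3, pow_succ', mul_sub, sub_mul, ← h4, mul_assoc L (L ^ b) Q]
      abel
    rw [e1]
    exact ((Rad.mul_left hO hL ih).cast (by push_cast; ring)).sub
      ((Rad.mul_right hO hc (hO.memc (hO.mul (hO.pow hMO b) hQ)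
        (show (b : ℤ) * 1 + 0 = b by ring))).cast (by push_cast; ring))

lemma rk_zero_of (h : DirectSum.IsInternal gr) {P : Module.End K V} {i : ℕ}
    (h0 : P * proj h i = 0) : rk h P i = 0 := by
  rw [rk, h0, LinearMap.range_zero, finrank_bot]

lemma rk_ne_zero_of (h : DirectSum.IsInternal gr) {P : Module.End K V} {i : ℕ}
    (h0 : P * proj h i ≠ 0) : rk h P i ≠ 0 := by
  rw [rk]
  intro h1
  exact h0 (LinearMap.range_eq_bot.1 (Submodule.finrank_eq_zero.1 h1))

lemma comb {R : Type*} [Ring R] {γ γ' P Q' Q B π : R} (hQ : Q = P + Q') (hPQ : P * Q = P)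
    (hQ'Q : Q' * Q = Q') : (γ * P + γ' * Q') * B * Q * π - Q * π =
      (γ * ((P * B - B * P) * (Q * π)) + γ' * ((Q' * B - B * Q') * (Q * π))) +
      ((γ * B * P * π - P * π) + (γ' * B * Q' * π - Q' * π)) := by
  have h1 : γ * B * P * π = γ * B * (P * Q) * π := by rw [hPQ]
  have h2 : γ' * B * Q' * π = γ' * B * (Q' * Q) * π := by rw [hQ'Q]
  have h3 : Q * π = P * π + Q' * π := by rw [hQ, add_mul]
  rw [h1, h2]
  conv_lhs => enter [2]; rw [h3]
  noncomm_ring

/-- If the ranks of all the idempotents which commute with `L` modulo the radical are symmetric,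
then `L ^ (n - i)` is invertible in degree `i` modulo the radical. -/
theorem exists_inv (hO : GAlg h O) {n : ℕ} (hbd : ∀ i, 2 * n < i → gr i = ⊥)
    {L : Module.End K V} (hL : L ∈ O 1)
    (hsym : ∀ Q ∈ O 0, Q * Q = Q → Rad O 1 (Q * L - L * Q) →
      ∀ i ≤ 2 * n, rk h Q i = rk h Q (2 * n - i)) {i : ℕ} (hi : i ≤ n) (r : ℕ) :
    ∀ Q ∈ O 0, Q * Q = Q → Rad O 1 (Q * L - L * Q) →
      Module.finrank K (LinearMap.range Q) = r →
      ∃ γ ∈ O (-((n - i : ℕ) : ℤ)),
        Rad O 0 (γ * L ^ (n - i) * Q * proj h i - Q * proj h i) := by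
  induction r using Nat.strong_induction_on with
  | _ r ih =>
  intro Q hQ hQQ hc hr
  by_cases hQ0 : Q = 0
  · refine ⟨0, Submodule.zero_mem _, ?_⟩
    rw [hQ0]
    simp only [mul_zero, zero_mul, sub_self]
    exact Rad.zero _
  obtain ⟨a, j, e, S, s⟩ := exists_str hO hbd hL hQ hQQ hQ0
  set M := Q * L * Q with hM
  have hMO : M ∈ O 1 := hO.memc (hO.mul (hO.mul hQ hL) hQ) (by ring)
  have hQM : Q * M = M := by rw [hM, ← mul_assoc, ← mul_assoc, hQQ]
  have hMQ : M * Q = M := by rw [hM, mul_assoc, hQQ]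
  set P := PP M e S a with hP
  have hPO : P ∈ O 0 := s.PP_mem hO hMO
  have hPP : P * P = P := s.PP_idem hO hMO
  have hQP : Q * P = P := s.Q_PP hO hMO hQM
  have hPQ : P * Q = P := s.PP_Q hO hMO hMQ
  have hPc : Rad O 1 (P * L - L * P) := by
    have h1 := s.comm hO hMO hQM hMQ
    have h2 : Rad O 1 (P * (Q * (Q * L - L * Q))) :=
      (Rad.mul_left hO hPO (Rad.mul_left hO hQ hc)).cast (by ring)
    have h3 : Rad O 1 ((Q * L - L * Q) * Q * P) :=
      (Rad.mul_right hO (Rad.mul_right hO hc hQ) hPO).cast (by ring)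
    have e1 : P * L - L * P = P * (Q * (Q * L - L * Q)) + (Q * L - L * Q) * Q * P -
        (M * P - P * M) := by
      have h4 : P * (Q * (Q * L - L * Q)) = P * L - P * M := by
        rw [mul_sub, ← mul_assoc Q Q L, hQQ, ← mul_assoc Q L Q, mul_sub, ← mul_assoc, hPQ, hM]
      have h5 : (Q * L - L * Q) * Q * P = M * P - L * P := by
        rw [sub_mul, mul_assoc L Q Q, hQQ, sub_mul, mul_assoc L Q P, hQP, hM]
      rw [h4, h5]
      abel
    rw [e1]
    exact (h2.add h3).sub h1
  -- the center of the string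
  have hP1 : P * proj h j ≠ 0 := by
    have := s.PP_proj_same hO hMO (Nat.zero_le a)
    rw [mul_zero, add_zero] at this
    rw [hP, this]
    exact s.EE_ne hO hMO (Nat.zero_le a)
  have hP2 : P * proj h (j + 2 * a) ≠ 0 := by
    rw [hP, s.PP_proj_same hO hMO le_rfl]
    exact s.EE_ne hO hMO le_rfl
  have hle : ∀ {i : ℕ}, P * proj h i ≠ 0 → i ≤ 2 * n := by
    intro i hi
    by_contra hlt
    apply hi
    have h0 : proj h i = 0 := by
      rw [← LinearMap.range_eq_bot, range_proj, hbd i (by omega)]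
    rw [h0, mul_zero]
  have hex : ∀ {i : ℕ}, P * proj h i ≠ 0 → ∃ l ≤ a, i = j + 2 * l := by
    intro i hi
    by_contra hcon
    push Not at hcon
    exact hi (s.PP_proj_ne hO hMO hcon)
  have hcenter : j + a = n := by
    have h1 := hle hP1
    have h2 := hle hP2
    have h3 : P * proj h (2 * n - j) ≠ 0 := by
      intro h0
      exact rk_ne_zero_of h hP1 (by rw [hsym P hPO hPP hPc j h1, rk_zero_of h h0])
    have h4 : P * proj h (2 * n - (j + 2 * a)) ≠ 0 := by
      intro h0
      exact rk_ne_zero_of h hP2 (by rw [hsym P hPO hPP hPc _ h2, rk_zero_of h h0])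
    obtain ⟨l, hl, hl'⟩ := hex h3
    obtain ⟨l', hl1, hl2⟩ := hex h4
    omega
  -- the inverse on the string
  obtain ⟨γ, hγ, hγ1⟩ : ∃ γ ∈ O (-((n - i : ℕ) : ℤ)),
      Rad O 0 (γ * L ^ (n - i) * P * proj h i - P * proj h i) := by
    by_cases hPi : P * proj h i = 0
    · refine ⟨0, Submodule.zero_mem _, ?_⟩
      rw [mul_assoc, hPi]
      simp only [mul_zero, sub_self]
      exact Rad.zero _
    · obtain ⟨l, hl, hil⟩ := hex hPi
      have hla : 2 * l ≤ a := by omega
      have hni : n - i = a - 2 * l := by omega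
      refine ⟨M ^ l * e * S * M ^ l, ?_, ?_⟩
      · refine hO.memc (hO.mul (hO.mul (hO.mul (hO.pow hMO l) s.e_mem) s.S_mem)
          (hO.pow hMO l)) ?_
        rw [hni]
        push_cast [Nat.cast_sub hla]
        ring
      · have h1 := rad_pow hO hL hQ hQQ hc (n - i)
        have hPE : P * proj h i = EE M e S a l := by
          rw [hil, hP, s.PP_proj_same hO hMO hl]
        have e1 : M ^ l * e * S * M ^ l * L ^ (n - i) * P * proj h i - P * proj h i =
            M ^ l * e * S * M ^ l * ((L ^ (n - i) * Q - M ^ (n - i) * Q) * (P * proj h i)) := by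
          have h2 : M ^ l * e * S * M ^ l * (M ^ (n - i) * (Q * (P * proj h i))) =
              P * proj h i := by
            rw [← mul_assoc Q P, hQP, hPE, hni]
            exact s.inv hO hMO hla
          rw [sub_mul, mul_sub, mul_assoc (M ^ (n - i)) Q, h2, mul_assoc (L ^ (n - i)) Q,
            ← mul_assoc Q P, hQP]
          simp only [mul_assoc]
        rw [e1]
        have hγO : M ^ l * e * S * M ^ l ∈ O (-((n - i : ℕ) : ℤ)) := by
          refine hO.memc (hO.mul (hO.mul (hO.mul (hO.pow hMO l) s.e_mem) s.S_mem)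
            (hO.pow hMO l)) ?_
          rw [hni]
          push_cast [Nat.cast_sub hla]
          ring
        exact (Rad.mul_left hO hγO (Rad.mul_right hO h1 (hO.mul hPO (hO.proj i)))).cast
          (by ring)
  -- the remaining part
  set Q' := Q - P with hQ'
  have hQ'O : Q' ∈ O 0 := Submodule.sub_mem _ hQ hPO
  have hQ'Q' : Q' * Q' = Q' := by
    rw [hQ', mul_sub, sub_mul, sub_mul, hQQ, hPQ, hQP, hPP, sub_self, sub_zero]
  have hQ'c : Rad O 1 (Q' * L - L * Q') := by
    have e1 : Q' * L - L * Q' = (Q * L - L * Q) - (P * L - L * P) := by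
      rw [hQ', sub_mul, mul_sub]; abel
    rw [e1]
    exact hc.sub hPc
  have hrk : Module.finrank K (LinearMap.range Q') < r := by
    have h1 := trace_idem hQQ
    have h2 := trace_idem hPP
    have h3 := trace_idem hQ'Q'
    rw [hQ', map_sub, h1, h2, hr] at h3
    have hP0 : Module.finrank K (LinearMap.range P) ≠ 0 := by
      intro h0
      apply hP1
      rw [LinearMap.range_eq_bot.1 (Submodule.finrank_eq_zero.1 h0), zero_mul]
    have h4 : (r : K) = ((Module.finrank K (LinearMap.range (Q - P)) +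
        Module.finrank K (LinearMap.range P) : ℕ) : K) := by
      push_cast
      rw [← h3]; ring
    have h5 : r = Module.finrank K (LinearMap.range (Q - P)) +
        Module.finrank K (LinearMap.range P) := by exact_mod_cast h4
    rw [hQ']
    omega
  obtain ⟨γ', hγ', hγ1'⟩ := ih _ hrk Q' hQ'O hQ'Q' hQ'c rfl
  refine ⟨γ * P + γ' * Q', Submodule.add_mem _ (hO.memc (hO.mul hγ hPO) (by ring))
    (hO.memc (hO.mul hγ' hQ'O) (by ring)), ?_⟩
  have hQ'Q : Q' * Q = Q' := by rw [hQ', sub_mul, hQQ, hPQ]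
  have c1 := rad_comm_pow hO hL hPO hPc (n - i)
  have c2 := rad_comm_pow hO hL hQ'O hQ'c (n - i)
  have e1 : (γ * P + γ' * Q') * L ^ (n - i) * Q * proj h i - Q * proj h i =
      (γ * ((P * L ^ (n - i) - L ^ (n - i) * P) * (Q * proj h i)) +
        γ' * ((Q' * L ^ (n - i) - L ^ (n - i) * Q') * (Q * proj h i))) +
      ((γ * L ^ (n - i) * P * proj h i - P * proj h i) +
        (γ' * L ^ (n - i) * Q' * proj h i - Q' * proj h i)) := by
    exact comb (by rw [hQ']; abel) hPQ hQ'Q
  rw [e1]
  refine Rad.add (Rad.add ?_ ?_) (hγ1.add hγ1')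
  · exact (Rad.mul_left hO hγ (Rad.mul_right hO c1 (hO.mul hQ (hO.proj i)))).cast (by ring)
  · exact (Rad.mul_left hO hγ' (Rad.mul_right hO c2 (hO.mul hQ (hO.proj i)))).cast (by ring)

end Pool.Agent.V1144.Pw
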