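import Pool.Agent.V1144.Pw.Blk

/-!
# The polynomials of ranks
-/

open CategoryTheory AlgebraicGeometry Finset

set_option linter.unusedSectionVars false
set_option linter.unusedVariables false

universe u v

namespace Pool.Agent.V1144.Pw

open Pool.Agent.H914 Pool.Agent.H914.VarClass Pool.Agent.H914.VarClass.Obj
  Pool.Agent.H914.WeilCohomology Pool.Agent.H281R3.HT Pool.Agent.Y129

variable {k : Type u} [Field k] {𝒱 : VarClass k} {ops : CycleOps 𝒱}
  {W : WeilCohomology.{u, v} ops} {X Y Z : 𝒱.Obj}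

/-- The value at `t` of the polynomial whose coefficients are the ranks of `Q`. -/
noncomputable def pol (W : WeilCohomology.{u, v} ops) (Y : 𝒱.Obj) (Q : Module.End W.K (W.H Y))
    (t : ℚ) : ℚ :=
  ∑ i ∈ range (2 * Y.dim + 1), (rk (W.isInternal Y) Q i : ℚ) * t ^ i

lemma pol_trace {Q : Module.End W.K (W.H Y)} (hQ : Q ∈ KOp W Y Y 0) (hQQ : Q * Q = Q) (t : ℚ) :
    ((pol W Y Q t : ℚ) : W.K) =
      LinearMap.trace W.K (W.H Y) (Q * scal (W.isInternal Y) (fun i => (t : W.K) ^ i)) := by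
  have hQh : IsHom (W.gr Y) (2 * 0) Q := KOp.isHom hQ
  rw [mul_zero] at hQh
  have hc : ∀ i, proj (W.isInternal Y) i * Q = Q * proj (W.isInternal Y) i := fun i =>
    IsHom.proj_comm _ hQh i
  rw [scal_eq_sum (W.isInternal Y) (N := 2 * Y.dim + 1) (fun i hi => W.gr_eq_bot Y i (by omega)),
    Finset.mul_sum, map_sum, pol]
  push_cast
  refine Finset.sum_congr rfl fun i _ => ?_
  have h1 : Q * proj (W.isInternal Y) i * (Q * proj (W.isInternal Y) i) =
      Q * proj (W.isInternal Y) i := by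
    rw [mul_assoc, ← mul_assoc _ Q, hc, mul_assoc Q _ (proj _ i), proj_mul_proj, ← mul_assoc, hQQ]
  rw [mul_smul_comm, map_smul, smul_eq_mul, H914.trace_idem h1, rk, mul_comm]

lemma scal_prod (f : W.K) : scal (W.isInternal (X.prod Y)) (fun i => f ^ i) =
    extOp W (scal (W.isInternal X) (fun i => f ^ i)) (scal (W.isInternal Y) (fun i => f ^ i)) := by
  apply LinearMap.ext
  intro c
  refine W.kunneth_induction (p := fun c => scal (W.isInternal (X.prod Y)) (fun i => f ^ i) c =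
    extOp W (scal (W.isInternal X) (fun i => f ^ i)) (scal (W.isInternal Y) (fun i => f ^ i)) c)
    ?_ ?_ c
  · intro a b ha hb
    rw [map_add, map_add, ha, hb]
  · intro i j a ha b hb
    rw [extOp_tmul, scal_apply _ _ ha, scal_apply _ _ hb,
      scal_apply _ _ (W.mul_mem (W.map_mem (fst X Y) ha) (W.map_mem (snd X Y) hb)), map_smul,
      map_smul, smul_mul_assoc, mul_smul_comm, smul_smul, pow_add]

lemma trace_extOp (φ : Module.End W.K (W.H X)) (ψ : Module.End W.K (W.H Y)) :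
    LinearMap.trace W.K _ (extOp W φ ψ) = LinearMap.trace W.K _ φ * LinearMap.trace W.K _ ψ := by
  have h4 : extOp W φ ψ = (kappa W X Y).conj (TensorProduct.map φ ψ) := by
    rw [LinearEquiv.conj_apply, extOp, LinearMap.comp_assoc]
  rw [h4, LinearMap.trace_conj', LinearMap.trace_tensorProduct']

/-- The polynomials are multiplicative. -/
theorem pol_prod {Q : Module.End W.K (W.H X)} {R : Module.End W.K (W.H Y)}
    (hQ : Q ∈ KOp W X X 0) (hQQ : Q * Q = Q) (hR : R ∈ KOp W Y Y 0) (hRR : R * R = R) (t : ℚ) :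
    pol W (X.prod Y) (extOp W Q R) t = pol W X Q t * pol W Y R t := by
  have h1 := pol_trace (KOp.cast (KOp.ext hQ hR) (add_zero 0))
    (by rw [extOp_mul, hQQ, hRR] : extOp W Q R * extOp W Q R = extOp W Q R) t
  rw [scal_prod, extOp_mul, trace_extOp, ← pol_trace hQ hQQ, ← pol_trace hR hRR] at h1
  exact_mod_cast h1

lemma pol_nonneg (Q : Module.End W.K (W.H Y)) {t : ℚ} (ht : 0 ≤ t) : 0 ≤ pol W Y Q t :=
  Finset.sum_nonneg fun i _ => mul_nonneg (Nat.cast_nonneg _) (pow_nonneg ht i)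

lemma rk_le_pol (Q : Module.End W.K (W.H Y)) {t : ℚ} (ht : 0 ≤ t) {i : ℕ}
    (hi : i ≤ 2 * Y.dim) : (rk (W.isInternal Y) Q i : ℚ) * t ^ i ≤ pol W Y Q t :=
  Finset.single_le_sum (f := fun i => (rk (W.isInternal Y) Q i : ℚ) * t ^ i)
    (fun i _ => mul_nonneg (Nat.cast_nonneg _) (pow_nonneg ht i))
    (Finset.mem_range.2 (by omega))

lemma one_mem : (1 : Module.End W.K (W.H Y)) ∈ KOp W Y Y 0 := KOp.id Y

/-- The geometric mean of the values at `t` and `1 / t`. -/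
noncomputable def gm (W : WeilCohomology.{u, v} ops) (Y : 𝒱.Obj) (t : ℚ)
    (Q : Module.End W.K (W.H Y)) : ℝ :=
  √((pol W Y Q t : ℝ) * (pol W Y Q t⁻¹ : ℝ))

lemma gm_prod {Q : Module.End W.K (W.H X)} {R : Module.End W.K (W.H Y)}
    (hQ : Q ∈ KOp W X X 0) (hQQ : Q * Q = Q) (hR : R ∈ KOp W Y Y 0) (hRR : R * R = R) {t : ℚ}
    (ht : 0 ≤ t) : gm W (X.prod Y) t (extOp W Q R) = gm W X t Q * gm W Y t R := by
  rw [gm, gm, gm, ← Real.sqrt_mul (mul_nonneg (by exact_mod_cast pol_nonneg Q ht)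
    (by exact_mod_cast pol_nonneg Q (inv_nonneg.2 ht))), pol_prod hQ hQQ hR hRR,
    pol_prod hQ hQQ hR hRR]
  congr 1
  push_cast
  ring

/-- The bound for one block. -/
lemma min_le_gm (Q : Module.End W.K (W.H Y)) {t : ℚ} (ht : 0 < t) {i : ℕ} (hi : i ≤ Y.dim) :
    ((min (rk (W.isInternal Y) Q i) (rk (W.isInternal Y) Q (2 * Y.dim - i)) : ℕ) : ℝ) ≤
      (t : ℝ) ^ (Y.dim - i) * gm W Y t Q := by
  have htr : (0 : ℝ) < t := by exact_mod_cast ht
  set a := rk (W.isInternal Y) Q i with ha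
  set b := rk (W.isInternal Y) Q (2 * Y.dim - i) with hb
  have h1 : (a : ℝ) * (t : ℝ) ^ i ≤ (pol W Y Q t : ℝ) := by
    exact_mod_cast rk_le_pol Q ht.le (show i ≤ 2 * Y.dim by omega)
  have h2 : (b : ℝ) * ((t : ℝ)⁻¹) ^ (2 * Y.dim - i) ≤ (pol W Y Q t⁻¹ : ℝ) := by
    exact_mod_cast rk_le_pol Q (inv_nonneg.2 ht.le) (show 2 * Y.dim - i ≤ 2 * Y.dim by omega)
  have h3 : (((min a b : ℕ) : ℝ)) ^ 2 ≤ (t : ℝ) ^ (2 * (Y.dim - i)) *
      ((pol W Y Q t : ℝ) * (pol W Y Q t⁻¹ : ℝ)) := by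
    have h4 : ((min a b : ℕ) : ℝ) ≤ a := by exact_mod_cast min_le_left a b
    have h5 : ((min a b : ℕ) : ℝ) ≤ b := by exact_mod_cast min_le_right a b
    have h6 : (0 : ℝ) ≤ ((min a b : ℕ) : ℝ) := Nat.cast_nonneg _
    have h7 : ((min a b : ℕ) : ℝ) ^ 2 ≤ (a : ℝ) * b := by
      rw [sq]; exact mul_le_mul h4 h5 h6 (Nat.cast_nonneg _)
    have h8 : (a : ℝ) * b = (t : ℝ) ^ (2 * (Y.dim - i)) * ((a : ℝ) * (t : ℝ) ^ i *
        ((b : ℝ) * ((t : ℝ)⁻¹) ^ (2 * Y.dim - i))) := by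
      have h9 : 2 * Y.dim - i = 2 * (Y.dim - i) + i := by omega
      rw [h9, inv_pow, pow_add]
      field_simp
    rw [h8] at h7
    refine h7.trans (mul_le_mul_of_nonneg_left ?_ (by positivity))
    exact mul_le_mul h1 h2 (by positivity) (by exact_mod_cast pol_nonneg Q ht.le)
  rw [gm]
  have h9 : (t : ℝ) ^ (Y.dim - i) = √((t : ℝ) ^ (2 * (Y.dim - i))) := by
    rw [mul_comm 2, pow_mul, Real.sqrt_sq (by positivity)]
  rw [h9, ← Real.sqrt_mul (by positivity)]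
  exact Real.le_sqrt_of_sq_le h3

end Pool.Agent.V1144.Pw
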