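import Pool.Agent.V1144.Pw.Alg

/-!
# Splitting off the longest string
-/

open Polynomial Finset

set_option linter.unusedSectionVars false
set_option linter.unusedVariables false

namespace Pool.Agent.V1144.Pw

open Pool.Agent.H914

variable {K : Type*} [Field K] [CharZero K] {V : Type*} [AddCommGroup V] [Module K V]
  [Module.Finite K V] {gr : ℕ → Submodule K V}
  {h : DirectSum.IsInternal gr} {O : ℤ → Submodule K (Module.End K V)}

/-- The rank of `Q` in degree `i`. -/
noncomputable def rk (h : DirectSum.IsInternal gr) (Q : Module.End K V) (i : ℕ) : ℕ :=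
  Module.finrank K (LinearMap.range (Q * proj h i))

/-- The data of a longest string in the part cut out by the idempotent `Q`. -/
structure Str (h : DirectSum.IsInternal gr) (O : ℤ → Submodule K (Module.End K V))
    (Q M : Module.End K V) (a j : ℕ) (e S : Module.End K V) : Prop where
  e_idem : e * e = e
  e_ne : e ≠ 0
  e_mem : e ∈ O 0
  S_mem : S ∈ O (-a)
  Qe : Q * e = e
  eQ : e * Q = e
  pe : proj h j * e = e
  ep : e * proj h j = e
  eS : e * S = S
  SQ : S * Q = S
  Sp : S * proj h (j + 2 * a) = S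
  SMe : S * (M ^ a * e) = e
  rad : Rad O (a + 1) (M ^ (a + 1) * Q)

/-- Existence of a longest string. -/
theorem exists_str (hO : GAlg h O) {n : ℕ} (hbd : ∀ i, 2 * n < i → gr i = ⊥)
    {Q L : Module.End K V} (hL : L ∈ O 1) (hQ : Q ∈ O 0) (hQQ : Q * Q = Q) (hQ0 : Q ≠ 0) :
    ∃ a j e S, Str h O Q (Q * L * Q) a j e S := by
  classical
  set M := Q * L * Q with hM
  have hMO : M ∈ O 1 := hO.memc (hO.mul (hO.mul hQ hL) hQ) (by ring)
  have hQM : Q * M = M := by rw [hM, ← mul_assoc, ← mul_assoc, hQQ]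
  have hMQ : M * Q = M := by rw [hM, mul_assoc, hQQ]
  have hMpQ : ∀ l, Q * (M ^ l * Q) = M ^ l * Q := by
    intro l
    cases l with
    | zero => rw [pow_zero, one_mul, hQQ]
    | succ l => rw [pow_succ', mul_assoc, ← mul_assoc, hQM]
  have hMpO : ∀ l : ℕ, M ^ l * Q ∈ O l := fun l =>
    hO.memc (hO.mul (hO.pow hMO l) hQ) (by ring)
  -- the length
  have hex : ∃ b : ℕ, Rad O b (M ^ b * Q) := by
    refine ⟨2 * n + 1, ?_⟩
    have h0 : M ^ (2 * n + 1) * Q = 0 := by
      apply gr_ext h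
      intro i x hx
      rw [LinearMap.zero_apply]
      have h1 := hO.hom (hMpO (2 * n + 1)) i x (by rw [grZ_natCast]; exact hx)
      rw [show (i : ℤ) + 2 * ((2 * n + 1 : ℕ) : ℤ) = ((i + 2 * (2 * n + 1) : ℕ) : ℤ) by
        push_cast; ring, grZ_natCast, hbd _ (by omega), Submodule.mem_bot] at h1
      exact h1
    rw [h0]
    exact Rad.zero _
  obtain ⟨a, ha, hrad⟩ : ∃ a : ℕ, ¬ Rad O a (M ^ a * Q) ∧
      Rad O ((a + 1 : ℕ) : ℤ) (M ^ (a + 1) * Q) := by
    have h0 : Nat.find hex ≠ 0 := by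
      intro h0
      have := Nat.find_spec hex
      rw [h0, pow_zero, one_mul] at this
      exact hQ0 (eq_zero_of_rad hO hQQ (by simpa using this))
    obtain ⟨a, ha⟩ := Nat.exists_eq_succ_of_ne_zero h0
    refine ⟨a, Nat.find_min hex (by omega), ?_⟩
    have := Nat.find_spec hex
    rwa [ha] at this
  obtain ⟨S₀, hS₀, htr⟩ : ∃ S ∈ O (-(a : ℤ)), LinearMap.trace K V (S * (M ^ a * Q)) ≠ 0 := by
    by_contra hcon
    push Not at hcon
    exact ha ⟨hMpO a, hcon⟩
  obtain ⟨j, hj⟩ : ∃ j, LinearMap.trace K V (S₀ * (M ^ a * Q) * proj h j) ≠ 0 := by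
    by_contra hcon
    push Not at hcon
    apply htr
    have h1 := sum_proj h (N := 2 * n + 1) (fun i hi => hbd i (by omega))
    rw [← mul_one (S₀ * (M ^ a * Q)), ← h1, Finset.mul_sum, map_sum]
    exact Finset.sum_eq_zero fun i _ => hcon i
  have hpQ : ∀ i, proj h i * Q = Q * proj h i := fun i => hO.proj_comm hQ i
  set A := Q * S₀ * (M ^ a * Q) * proj h j with hA
  have hAO : A ∈ O 0 :=
    hO.memc (hO.mul (hO.mul (hO.mul hQ hS₀) (hMpO a)) (hO.proj j)) (by ring)
  have hAnil : ¬ IsNilpotent A := by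
    intro hnil
    apply hj
    have h1 := (LinearMap.isNilpotent_trace_of_isNilpotent hnil).eq_zero
    rw [hA, mul_assoc, mul_assoc, LinearMap.trace_mul_comm] at h1
    rw [← h1]
    congr 1
    have h2 : M ^ a * Q * proj h j * Q = M ^ a * Q * proj h j := by
      rw [mul_assoc _ _ Q, hpQ, ← mul_assoc, mul_assoc _ Q Q, hQQ]
    calc S₀ * (M ^ a * Q) * proj h j = S₀ * (M ^ a * Q * proj h j) := by rw [mul_assoc]
      _ = S₀ * (M ^ a * Q * proj h j * Q) := by rw [h2]
      _ = _ := by noncomm_ring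
  obtain ⟨g, hg1, hg2⟩ := exists_idem hAnil
  set G := aeval A g with hG
  have hGO : G ∈ O 0 := hO.aeval hAO g
  have hGA : G * A = A * G := by
    have h2 : aeval A (g * X) = aeval A (X * g) := by rw [mul_comm]
    rwa [map_mul, map_mul, aeval_X] at h2
  set e := G * A with he
  have hQA : Q * A = A := by
    rw [hA]; simp only [← mul_assoc]; rw [hQQ]
  have hAQ : A * Q = A := by
    rw [hA, mul_assoc _ _ Q, hpQ, ← mul_assoc, mul_assoc (Q * S₀) _ Q, mul_assoc _ Q Q, hQQ]
  have hAp : A * proj h j = A := by rw [hA, mul_assoc _ _ (proj h j), proj_mul_proj]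
  have hpA : proj h j * A = A := by rw [hO.proj_comm hAO, hAp]
  have hQe : Q * e = e := by rw [hGA, ← mul_assoc, hQA]
  have heQ : e * Q = e := by rw [he, mul_assoc, hAQ]
  have hpe : proj h j * e = e := by rw [hGA, ← mul_assoc, hpA]
  have hep : e * proj h j = e := by rw [he, mul_assoc, hAp]
  have heO : e ∈ O 0 := hO.memc (hO.mul hGO hAO) (by ring)
  have hMa : IsHom gr (2 * (a : ℤ)) (M ^ a) := by
    have := hO.hom (hO.pow hMO a)
    rwa [mul_one] at this
  have hMe : proj h (j + 2 * a) * (M ^ a * e) = M ^ a * e := by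
    rw [← mul_assoc, proj_shift h hMa, mul_assoc, hpe]
  have hQMe : Q * (M ^ a * e) = M ^ a * e := by
    rw [← hQe, ← mul_assoc (M ^ a) Q e, ← mul_assoc Q, hMpQ]
  have hAe : Q * S₀ * (M ^ a * e) = A * e := by
    rw [hA, mul_assoc _ (proj h j) e, hpe, mul_assoc (Q * S₀) (M ^ a * Q) e,
      mul_assoc (M ^ a) Q e, hQe]
  refine ⟨a, j, e, e * G * Q * S₀ * Q * proj h (j + 2 * a), hg1, hg2, heO, ?_, hQe, heQ, hpe, hep,
    ?_, ?_, ?_, ?_, ?_⟩
  · exact hO.memc (hO.mul (hO.mul (hO.mul (hO.mul (hO.mul heO hGO) hQ) hS₀) hQ) (hO.proj _))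
      (by ring)
  · simp only [← mul_assoc]; rw [hg1]
  · rw [mul_assoc _ _ Q, hpQ, ← mul_assoc, mul_assoc _ Q Q, hQQ]
  · rw [mul_assoc _ _ (proj h (j + 2 * a)), proj_mul_proj]
  · calc e * G * Q * S₀ * Q * proj h (j + 2 * a) * (M ^ a * e)
        = e * G * Q * S₀ * Q * (proj h (j + 2 * a) * (M ^ a * e)) := by rw [mul_assoc]
      _ = e * G * Q * S₀ * (Q * (M ^ a * e)) := by rw [hMe, mul_assoc _ Q]
      _ = e * G * (Q * S₀ * (M ^ a * e)) := by rw [hQMe]; simp only [mul_assoc]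
      _ = e * (G * A) * e := by rw [hAe]; simp only [mul_assoc]
      _ = e := by rw [← he, hg1, hg1]
  · exact hrad.cast (by push_cast; ring)

end Pool.Agent.V1144.Pw
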